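import Pool.Agent.Work.MP_c20ce7_nt.Comp2
import Pool.Agent.Work.MP_c20ce7_bA.SRC

/-!
# The example with `n = 35`: all parts together
-/

set_option autoImplicit false

open Pool.Agent.MPc20ce7

noncomputable section

namespace Pool.DM

/-- There are parameters `φ`, `φ'`, `ψ` of dimension `35` which give a negative answer with `α = 1`. -/
theorem h35 :
    ∃ φ φ' ψ : Par, dim φ = 35 ∧ Geq φ φ' ∧ ABV φ ψ ∧ ABV φ' ψ ∧ ABV (lift 1 φ') (lift 1 ψ) ∧
      ¬ ABV (lift 1 φ) (lift 1 ψ) := cp_h35_of_SRC p_SRC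

theorem notQ1 : ¬ Q1 := cp_notQ1 (cp_BASE p_SRC)

end Pool.DM
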