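import Mathlib

/-!
# Unramified Langlands parameters of `GL_n(F)`, the closure order, theta lifts and the crystal operations

`F` is a non-archimedean local field with Weil group `W_F` and norm `|.|`.
-/

set_option autoImplicit false

namespace Pool.Agent.MPc20ce7

/-! ## Parameters -/

/-- A finite multiset of pairs `(s, k)`, `s` a real number and `k` a natural number. It stands for the
L-parameter `⊕ |.|^s ⊗ S_k` of `W_F × SL_2(ℂ)`, where `S_k` is the irreducible representation of
`SL_2(ℂ)` of dimension `k`. By the local Langlands correspondence it also stands for the irreducible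
representation of `GL_n(F)` with this parameter. -/
abbrev Par := Multiset (ℝ × ℕ)

/-- All `S_k` have positive dimension. -/
def IsPar (φ : Par) : Prop := ∀ p ∈ φ, 0 < p.2

/-- The dimension `n` of the parameter. -/
def dim (φ : Par) : ℕ := (φ.map Prod.snd).sum

/-- The contragredient parameter. -/
noncomputable def contra (φ : Par) : Par := φ.map fun p => (-p.1, p.2)

/-- The twist by `|.|^t`. -/
noncomputable def twist (t : ℝ) (φ : Par) : Par := φ.map fun p => (p.1 + t, p.2)

/-- The parameter `φ_α = φ^∨ ⊕ ⊕_{i < α} |.|^((α - 1) / 2 - i) ⊗ S_1`. If `φ` is the parameter of `π`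
then this is the parameter of the theta lift `θ_{-α}(π)`. -/
noncomputable def lift (α : ℕ) (φ : Par) : Par :=
  contra φ + (Multiset.range α).map fun i : ℕ => (((α : ℝ) - 1) / 2 - (i : ℝ), 1)

/-! ## The space `V_λ` and the closure order -/

/-- The index set of the basis of the space of the parameter `⊕ |.|^s ⊗ S_k`, `(s, k)` in the list. -/
def Idx : List (ℝ × ℕ) → Type
  | [] => Empty
  | p :: l => Fin p.2 ⊕ Idx l

instance instFintypeIdx : (l : List (ℝ × ℕ)) → Fintype (Idx l)
  | [] => inferInstanceAs (Fintype Empty)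
  | p :: l => by
    haveI := instFintypeIdx l
    exact inferInstanceAs (Fintype (Fin p.2 ⊕ Idx l))

instance instDecidableEqIdx : (l : List (ℝ × ℕ)) → DecidableEq (Idx l)
  | [] => inferInstanceAs (DecidableEq Empty)
  | p :: l => by
    haveI := instDecidableEqIdx l
    exact inferInstanceAs (DecidableEq (Fin p.2 ⊕ Idx l))

/-- The infinitesimal parameter: `λ_φ(w)` is the diagonal matrix with the entries `|w| ^ e`, where `e`
is `expo`: on `|.|^s ⊗ S_k` the numbers `s + (k - 1) / 2 - j`, `j = 0, ..., k - 1`. -/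
noncomputable def expo : (l : List (ℝ × ℕ)) → Idx l → ℝ
  | [], x => Empty.elim x
  | p :: _, Sum.inl j => p.1 + ((p.2 : ℝ) - 1) / 2 - (j : ℕ)
  | _ :: l, Sum.inr x => expo l x

/-- The nilpotent matrix of `S_k`: the `j`-th basis vector is mapped to the one with number `j - 1`. -/
def jordan (k : ℕ) : Matrix (Fin k) (Fin k) ℂ := fun i j => if (i : ℕ) + 1 = j then 1 else 0

/-- The point `x_φ` of `V_λ` for the standard basis. -/
def nil : (l : List (ℝ × ℕ)) → Matrix (Idx l) (Idx l) ℂ
  | [] => 0
  | p :: l => Matrix.fromBlocks (jordan p.2) 0 0 (nil l)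

/-- Let `λ(w) = diag(|w| ^ e)` and `λ'(w) = diag(|w| ^ e')`. The pairs `(λ, x)` and `(λ', x')` are
conjugate: there is an invertible matrix `g` (with inverse `h`) with `g λ = λ' g` and `g x = x' g`. -/
def Conj {ι κ : Type} [Fintype ι] [DecidableEq ι] [Fintype κ] [DecidableEq κ] (e : ι → ℝ)
    (x : Matrix ι ι ℂ) (e' : κ → ℝ) (x' : Matrix κ κ ℂ) : Prop :=
  ∃ (g : Matrix κ ι ℂ) (h : Matrix ι κ ℂ), (∀ a i, g a i ≠ 0 → e' a = e i) ∧
    (∀ i a, h i a ≠ 0 → e i = e' a) ∧ g * h = 1 ∧ h * g = 1 ∧ x = h * x' * g

/-- The `H_λ`-orbit `C_φ` in `V_λ`, where `λ(w) = diag(|w| ^ e)`: all `x` such that `(λ, x)` is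
conjugate to `(λ_φ, x_φ)`. It is empty if `λ` is not conjugate to `λ_φ`. -/
def orbit {ι : Type} [Fintype ι] [DecidableEq ι] (e : ι → ℝ) (φ : Par) : Set (Matrix ι ι ℂ) :=
  {x | ∃ l : List (ℝ × ℕ), (l : Par) = φ ∧ Conj e x (expo l) (nil l)}

/-- The closure order `φ ≥_C φ'`: the parameters have the same infinitesimal parameter `λ` and `C_φ'` is
contained in the closure of `C_φ`. -/
def Geq (φ φ' : Par) : Prop :=
  ∃ (ι : Type) (_ : Fintype ι) (_ : DecidableEq ι) (e : ι → ℝ),
    (orbit e φ').Nonempty ∧ orbit e φ' ⊆ closure (orbit e φ)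

/-! ## Multisegments and the crystal operations -/

/-- Multisets of pairs of integers; the pair `(a, b)`, `a ≤ b`, stands for the segment `[a, b]`. -/
abbrev MS := Multiset (ℤ × ℤ)

/-- All segments are nonempty. -/
def IsMS (m : MS) : Prop := ∀ s ∈ m, s.1 ≤ s.2

instance (m : MS) : Decidable (IsMS m) := by unfold IsMS; infer_instance

/-- The parameter of a multisegment: the segment `[a, b]` gives `|.|^((a + b) / 2) ⊗ S_(b - a + 1)`. -/
noncomputable def par (m : MS) : Par :=
  m.map fun s => (((s.1 : ℝ) + s.2) / 2, (s.2 - s.1 + 1).toNat)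

/-- The number of the segments `[i, b]` with `k ≤ b` minus the number of the segments
`[i + 1, b]` with `k < b`. -/
def exc (i : ℤ) (m : MS) (k : ℤ) : ℤ :=
  ((m.filter fun s => s.1 = i ∧ k ≤ s.2).card : ℤ) - (m.filter fun s => s.1 = i + 1 ∧ k < s.2).card

/-- The number `ε_i(m)`: the number of the segments `[i, b]` which remain in a maximal matching of
segments `[i, b]` with segments `[i + 1, c]`, `c > b`. It is the largest of the numbers `exc i m k` and
`0`. -/
def eps (i : ℤ) (m : MS) : ℕ := (m.map fun s => (exc i m s.2).toNat).fold max 0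

/-- The number of the segments `[i, b]` with `k ≤ b` which remain in this matching (read in decreasing
order of the right ends). -/
def unm (i : ℤ) (m : MS) (k : ℤ) : ℕ :=
  ((m.filter fun s => k ≤ s.2).map fun s => (exc i m s.2).toNat).fold max 0

/-- The multiset of the unmatched segments `[i, b]`. -/
def unmatched (i : ℤ) (m : MS) : MS :=
  (m.dedup.filter fun s => s.1 = i).bind fun s =>
    Multiset.replicate (unm i m s.2 - unm i m (s.2 + 1)) s

/-- The multisegment `e_i^max m`: all unmatched segments `[i, b]` are replaced by `[i + 1, b]` (omitted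
if `b = i`). -/
def red (i : ℤ) (m : MS) : MS :=
  (m - unmatched i m) + ((unmatched i m).filter fun s => i < s.2).map fun s => (i + 1, s.2)

end Pool.Agent.MPc20ce7
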