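import Pool.Agent.Work.MP_c20ce7_nt.Interface

/-!
# Block CJ: `Conj` is an equivalence relation
-/

set_option autoImplicit false

namespace Pool.Agent.MPc20ce7

/-- A nonzero entry of a product of matrices comes from nonzero entries of the factors. -/
theorem CJ_mul_ne {α β γ : Type} [Fintype β] (A : Matrix α β ℂ) (B : Matrix β γ ℂ) (a : α) (c : γ)
    (h : (A * B) a c ≠ 0) : ∃ b, A a b ≠ 0 ∧ B b c ≠ 0 := by
  rw [Matrix.mul_apply] at h
  obtain ⟨b, -, hb⟩ := Finset.exists_ne_zero_of_sum_ne_zero h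
  exact ⟨b, left_ne_zero_of_mul hb, right_ne_zero_of_mul hb⟩

theorem p_CJ : Stmt_CJ := by
  refine ⟨?_, ?_, ?_⟩
  · intro ι _ _ e x
    refine ⟨1, 1, ?_, ?_, by simp, by simp, by simp⟩
    · intro a i h
      have hai : a = i := by
        by_contra hne
        exact h (Matrix.one_apply_ne hne)
      rw [hai]
    · intro a i h
      have hai : a = i := by
        by_contra hne
        exact h (Matrix.one_apply_ne hne)
      rw [hai]
  · intro ι κ _ _ _ _ e x e' x' hc
    obtain ⟨g, h, hg, hh, hgh, hhg, hx⟩ := hc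
    refine ⟨h, g, hh, hg, hhg, hgh, ?_⟩
    calc x' = (g * h) * x' * (g * h) := by rw [hgh]; simp
      _ = g * (h * x' * g) * h := by simp only [Matrix.mul_assoc]
      _ = g * x * h := by rw [← hx]
  · intro ι κ μ _ _ _ _ _ _ e x e' x' e'' x'' hc hc'
    obtain ⟨g, h, hg, hh, hgh, hhg, hx⟩ := hc
    obtain ⟨g', h', hg', hh', hgh', hhg', hx'⟩ := hc'
    refine ⟨g' * g, h * h', ?_, ?_, ?_, ?_, ?_⟩
    · intro b i hb
      obtain ⟨a, ha1, ha2⟩ := CJ_mul_ne g' g b i hb
      exact (hg' b a ha1).trans (hg a i ha2)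
    · intro i b hb
      obtain ⟨a, ha1, ha2⟩ := CJ_mul_ne h h' i b hb
      exact (hh i a ha1).trans (hh' a b ha2)
    · calc g' * g * (h * h') = g' * ((g * h) * h') := by simp only [Matrix.mul_assoc]
        _ = 1 := by rw [hgh, Matrix.one_mul, hgh']
    · calc h * h' * (g' * g) = h * ((h' * g') * g) := by simp only [Matrix.mul_assoc]
        _ = 1 := by rw [hhg', Matrix.one_mul, hhg]
    · calc x = h * x' * g := hx
        _ = h * (h' * x'' * g') * g := by rw [← hx']
        _ = h * h' * x'' * (g' * g) := by simp only [Matrix.mul_assoc]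

end Pool.Agent.MPc20ce7
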