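import Pool.Agent.Work.MP_c20ce7_nt.Interface

/-! # Block EQ -/

set_option autoImplicit false

namespace Pool.Agent.MPc20ce7

theorem p_EQ : Stmt_EQ := by
  intro ι κ _ _ _ _ σ e x e' x' he hx
  refine ⟨Matrix.of fun a i => if σ i = a then 1 else 0,
    Matrix.of fun i a => if σ i = a then 1 else 0, ?_, ?_, ?_, ?_, ?_⟩
  · intro a i h
    by_cases hs : σ i = a
    · rw [← hs]
      exact he i
    · exact absurd (if_neg hs) h
  · intro i a h
    by_cases hs : σ i = a
    · rw [← hs]
      exact (he i).symm
    · exact absurd (if_neg hs) h
  · ext a b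
    rw [Matrix.mul_apply, Matrix.one_apply, Finset.sum_eq_single (σ.symm a)]
    · simp only [Matrix.of_apply, Equiv.apply_symm_apply, if_true, one_mul]
    · intro i _ hi
      have : σ i ≠ a := fun h => hi (by rw [← h, Equiv.symm_apply_apply])
      simp only [Matrix.of_apply, if_neg this, zero_mul]
    · intro h
      exact absurd (Finset.mem_univ _) h
  · ext i j
    rw [Matrix.mul_apply, Matrix.one_apply, Finset.sum_eq_single (σ i)]
    · simp only [Matrix.of_apply, if_true, one_mul, EmbeddingLike.apply_eq_iff_eq]
      by_cases h : i = j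
      · rw [if_pos h, if_pos h.symm]
      · rw [if_neg h, if_neg (Ne.symm h)]
    · intro a _ ha
      simp only [Matrix.of_apply, if_neg (Ne.symm ha), zero_mul]
    · intro h
      exact absurd (Finset.mem_univ _) h
  · ext i j
    rw [Matrix.mul_apply, Finset.sum_eq_single (σ j)]
    · rw [Matrix.mul_apply, Finset.sum_eq_single (σ i)]
      · simp only [Matrix.of_apply, if_true, one_mul, mul_one]
        exact (hx i j).symm
      · intro a _ ha
        simp only [Matrix.of_apply, if_neg (Ne.symm ha), zero_mul]
      · intro h
        exact absurd (Finset.mem_univ _) h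
    · intro a _ ha
      simp only [Matrix.of_apply, if_neg (Ne.symm ha), mul_zero]
    · intro h
      exact absurd (Finset.mem_univ _) h

end Pool.Agent.MPc20ce7
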