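import Pool.Agent.Work.MP_c20ce7_nt.Interface

/-!
# Block PM: the standard points of permuted lists are conjugate
-/

set_option autoImplicit false

namespace Pool.Agent.MPc20ce7

theorem PM_block {α ι κ : Type} [Fintype α] [DecidableEq α] [Fintype ι] [DecidableEq ι]
    [Fintype κ] [DecidableEq κ] (f : α → ℝ) (e : ι → ℝ) (e' : κ → ℝ) (y : Matrix α α ℂ)
    (x : Matrix ι ι ℂ) (x' : Matrix κ κ ℂ) (hc : Conj e x e' x') :
    Conj (Sum.elim f e) (Matrix.fromBlocks y 0 0 x) (Sum.elim f e')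
      (Matrix.fromBlocks y 0 0 x') := by
  obtain ⟨g, h, h1, h2, h3, h4, h5⟩ := hc
  refine ⟨Matrix.fromBlocks 1 0 0 g, Matrix.fromBlocks 1 0 0 h, ?_, ?_, ?_, ?_, ?_⟩
  · rintro (a | a) (i | i) hne
    · rw [Matrix.fromBlocks_apply₁₁, Matrix.one_apply] at hne
      by_cases hai : a = i
      · subst hai
        rfl
      · exact absurd (if_neg hai) hne
    · exact absurd rfl hne
    · exact absurd rfl hne
    · exact h1 a i hne
  · rintro (a | a) (i | i) hne
    · rw [Matrix.fromBlocks_apply₁₁, Matrix.one_apply] at hne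
      by_cases hai : a = i
      · subst hai
        rfl
      · exact absurd (if_neg hai) hne
    · exact absurd rfl hne
    · exact absurd rfl hne
    · exact h2 a i hne
  · rw [Matrix.fromBlocks_multiply]
    simp [h3]
  · rw [Matrix.fromBlocks_multiply]
    simp [h4]
  · rw [Matrix.fromBlocks_multiply, Matrix.fromBlocks_multiply]
    simp [← h5]

/-- The exchange of the first two summands. -/
def PM_sw (α β γ : Type) : α ⊕ (β ⊕ γ) ≃ β ⊕ (α ⊕ γ) where
  toFun x := match x with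
    | Sum.inl a => Sum.inr (Sum.inl a)
    | Sum.inr (Sum.inl b) => Sum.inl b
    | Sum.inr (Sum.inr c) => Sum.inr (Sum.inr c)
  invFun x := match x with
    | Sum.inl a => Sum.inr (Sum.inl a)
    | Sum.inr (Sum.inl b) => Sum.inl b
    | Sum.inr (Sum.inr c) => Sum.inr (Sum.inr c)
  left_inv := by rintro (a | b | c) <;> rfl
  right_inv := by rintro (a | b | c) <;> rfl

theorem PM_expo (p : ℝ × ℕ) (l : List (ℝ × ℕ)) : expo (p :: l) =
    Sum.elim (fun j : Fin p.2 => p.1 + ((p.2 : ℝ) - 1) / 2 - (j : ℕ)) (expo l) := by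
  funext x
  rcases x with x | x <;> rfl

theorem p_PM (h1 : Stmt_CJ) (h2 : Stmt_EQ) : Stmt_PM := by
  intro l l' h
  induction h with
  | nil => exact h1.1 _ _ _
  | @cons p l₁ l₂ _ ih =>
    rw [PM_expo, PM_expo]
    exact PM_block _ _ _ (jordan p.2) _ _ ih
  | swap p q l =>
    refine h2 _ _ (PM_sw (Fin q.2) (Fin p.2) (Idx l)) _ _ _ _ ?_ ?_
    · rintro (a | b | c) <;> rfl
    · rintro (a | b | c) (a' | b' | c') <;> rfl
  | trans _ _ ih1 ih2 => exact h1.2.2 _ _ _ _ _ _ _ _ _ ih1 ih2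

end Pool.Agent.MPc20ce7
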