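import Pool.Agent.Work.MP_c20ce7_nt.Interface

/-!
# Block CH: the closure order of the example
-/

set_option autoImplicit false
set_option maxRecDepth 100000

namespace Pool.Agent.MPc20ce7

theorem CH_contra (m : MS) : contra (par m) = par (dual m) := by
  unfold contra par dual
  rw [Multiset.map_map, Multiset.map_map]
  apply Multiset.map_congr rfl
  rintro ⟨a, b⟩ _
  simp only [Function.comp, Prod.mk.injEq]
  constructor
  · push_cast; ring
  · congr 1; ring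

/-- The first elementary move with the multisegments up to equality. -/
theorem CH_mv1 (h : Stmt_EM) (X Y m : MS) (a b d : ℤ) (hab : a ≤ b) (hbd : b < d)
    (hX : X = (a, d) ::ₘ m) (hY : Y = (a, b) ::ₘ (b + 1, d) ::ₘ m) : GeqL (par X) (par Y) := by
  rw [hX, hY]
  exact h.1 a b d m hab hbd

/-- The second elementary move with the multisegments up to equality. -/
theorem CH_mv2 (h : Stmt_EM) (X Y m : MS) (a b c d : ℤ) (hac : a < c) (hcb : c ≤ b) (hbd : b < d)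
    (hX : X = (a, d) ::ₘ (c, b) ::ₘ m) (hY : Y = (a, b) ::ₘ (c, d) ::ₘ m) :
    GeqL (par X) (par Y) := by
  rw [hX, hY]
  exact h.2 a b c d m hac hcb hbd

theorem CH_HL (h1 : Stmt_EM) (h2 : Stmt_GE) : GeqL (par (dual segH)) (par (dual segL)) := by
  have s1 : GeqL (par (dual segH)) (par {(-4, -2), (-1, 0), (2, 3), (1, 3), (-1, 2), (-3, 2), (1, 1),
      (0, 1), (-2, 0), (-3, -1), (-4, -3)}) :=
    CH_mv1 h1 _ _ {(2, 3), (1, 3), (-1, 2), (-3, 2), (1, 1), (0, 1), (-2, 0), (-3, -1), (-4, -3)}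
      (-4) (-2) 0 (by decide) (by decide) (by decide) (by decide)
  have s2 : GeqL (par {(-4, -2), (-1, 0), (2, 3), (1, 3), (-1, 2), (-3, 2), (1, 1), (0, 1), (-2, 0),
      (-3, -1), (-4, -3)}) (par {(-4, -3), (-2, -2), (-1, 0), (2, 3), (1, 3), (-1, 2), (-3, 2),
      (1, 1), (0, 1), (-2, 0), (-3, -1), (-4, -3)}) :=
    CH_mv1 h1 _ _ {(-1, 0), (2, 3), (1, 3), (-1, 2), (-3, 2), (1, 1), (0, 1), (-2, 0), (-3, -1),
      (-4, -3)} (-4) (-3) (-2) (by decide) (by decide) (by decide) (by decide)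
  have s3 : GeqL (par {(-4, -3), (-2, -2), (-1, 0), (2, 3), (1, 3), (-1, 2), (-3, 2), (1, 1), (0, 1),
      (-2, 0), (-3, -1), (-4, -3)}) (par {(-3, 0), (-1, 2), (-4, -3), (-2, -2), (2, 3), (1, 3),
      (-1, 2), (1, 1), (0, 1), (-2, 0), (-3, -1), (-4, -3)}) :=
    CH_mv2 h1 _ _ {(-4, -3), (-2, -2), (2, 3), (1, 3), (-1, 2), (1, 1), (0, 1), (-2, 0), (-3, -1),
      (-4, -3)} (-3) 0 (-1) 2 (by decide) (by decide) (by decide) (by decide) (by decide)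
  have s4 : GeqL (par {(-3, 0), (-1, 2), (-4, -3), (-2, -2), (2, 3), (1, 3), (-1, 2), (1, 1), (0, 1),
      (-2, 0), (-3, -1), (-4, -3)}) (par {(1, 2), (3, 3), (-3, 0), (-1, 2), (-4, -3), (-2, -2),
      (2, 3), (-1, 2), (1, 1), (0, 1), (-2, 0), (-3, -1), (-4, -3)}) :=
    CH_mv1 h1 _ _ {(-3, 0), (-1, 2), (-4, -3), (-2, -2), (2, 3), (-1, 2), (1, 1), (0, 1), (-2, 0),
      (-3, -1), (-4, -3)} 1 2 3 (by decide) (by decide) (by decide) (by decide)
  have s5 : GeqL (par {(1, 2), (3, 3), (-3, 0), (-1, 2), (-4, -3), (-2, -2), (2, 3), (-1, 2), (1, 1),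
      (0, 1), (-2, 0), (-3, -1), (-4, -3)}) (par (dual segL)) :=
    CH_mv1 h1 _ _ {(1, 2), (3, 3), (-3, 0), (-1, 2), (-4, -3), (-2, -2), (2, 3), (-1, 2), (1, 1),
      (0, 1), (-3, -1), (-4, -3)} (-2) (-1) 0 (by decide) (by decide) (by decide) (by decide)
  exact h2.1 _ _ _ (h2.1 _ _ _ (h2.1 _ _ _ (h2.1 _ _ _ s1 s2) s3) s4) s5

theorem CH_MH (h1 : Stmt_EM) (h2 : Stmt_GE) : GeqL (par (dual segM)) (par (dual segH)) := by
  have s1 : GeqL (par (dual segM)) (par {(-1, 0), (1, 1), (1, 3), (-3, 3), (0, 2), (-4, 2), (-2, 0),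
      (-3, -1), (-4, -3)}) :=
    CH_mv1 h1 _ _ {(1, 3), (-3, 3), (0, 2), (-4, 2), (-2, 0), (-3, -1), (-4, -3)}
      (-1) 0 1 (by decide) (by decide) (by decide) (by decide)
  have s2 : GeqL (par {(-1, 0), (1, 1), (1, 3), (-3, 3), (0, 2), (-4, 2), (-2, 0), (-3, -1),
      (-4, -3)}) (par {(0, 1), (2, 2), (-1, 0), (1, 1), (1, 3), (-3, 3), (-4, 2), (-2, 0), (-3, -1),
      (-4, -3)}) :=
    CH_mv1 h1 _ _ {(-1, 0), (1, 1), (1, 3), (-3, 3), (-4, 2), (-2, 0), (-3, -1), (-4, -3)}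
      0 1 2 (by decide) (by decide) (by decide) (by decide)
  have s3 : GeqL (par {(0, 1), (2, 2), (-1, 0), (1, 1), (1, 3), (-3, 3), (-4, 2), (-2, 0), (-3, -1),
      (-4, -3)}) (par {(-4, 0), (-1, 2), (0, 1), (2, 2), (1, 1), (1, 3), (-3, 3), (-2, 0), (-3, -1),
      (-4, -3)}) :=
    CH_mv2 h1 _ _ {(0, 1), (2, 2), (1, 1), (1, 3), (-3, 3), (-2, 0), (-3, -1), (-4, -3)}
      (-4) 0 (-1) 2 (by decide) (by decide) (by decide) (by decide) (by decide)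
  have s4 : GeqL (par {(-4, 0), (-1, 2), (0, 1), (2, 2), (1, 1), (1, 3), (-3, 3), (-2, 0), (-3, -1),
      (-4, -3)}) (par (dual segH)) :=
    CH_mv2 h1 _ _ {(-4, 0), (-1, 2), (0, 1), (1, 1), (1, 3), (-2, 0), (-3, -1), (-4, -3)}
      (-3) 2 2 3 (by decide) (by decide) (by decide) (by decide) (by decide)
  exact h2.1 _ _ _ (h2.1 _ _ _ (h2.1 _ _ _ s1 s2) s3) s4

theorem p_CH (h1 : Stmt_EM) (h2 : Stmt_GE) : Stmt_CH := by
  refine ⟨?_, ?_⟩
  · rw [CH_contra, CH_contra]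
    exact h2.2 _ _ (CH_HL h1 h2)
  · rw [CH_contra, CH_contra]
    exact h2.2 _ _ (CH_MH h1 h2)

end Pool.Agent.MPc20ce7
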