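import Pool.Agent.Work.MP_c20ce7_nt.Interface

/-!
# Block CO: adding a common summand
-/

set_option autoImplicit false

namespace Pool.Agent.MPc20ce7

/-- Conjugacy of block diagonal matrices with a common block. -/
theorem CO_block {α ι κ : Type} [Fintype α] [DecidableEq α] [Fintype ι] [DecidableEq ι] [Fintype κ]
    [DecidableEq κ] (f : α → ℝ) (J : Matrix α α ℂ) (e : ι → ℝ) (x : Matrix ι ι ℂ) (e' : κ → ℝ)
    (x' : Matrix κ κ ℂ) (h : Conj e x e' x') :
    Conj (Sum.elim f e) (Matrix.fromBlocks J 0 0 x) (Sum.elim f e')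
      (Matrix.fromBlocks J 0 0 x') := by
  obtain ⟨g, k, h1, h2, h3, h4, h5⟩ := h
  refine ⟨Matrix.fromBlocks 1 0 0 g, Matrix.fromBlocks 1 0 0 k, ?_, ?_, ?_, ?_, ?_⟩
  · rintro (a | a) (i | i) hne
    · rw [Matrix.fromBlocks_apply₁₁] at hne
      have hai : a = i := by
        by_contra hai
        exact hne (Matrix.one_apply_ne hai)
      rw [hai]
      rfl
    · exact absurd rfl hne
    · exact absurd rfl hne
    · exact h1 a i hne
  · rintro (a | a) (i | i) hne
    · rw [Matrix.fromBlocks_apply₁₁] at hne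
      have hai : a = i := by
        by_contra hai
        exact hne (Matrix.one_apply_ne hai)
      rw [hai]
      rfl
    · exact absurd rfl hne
    · exact absurd rfl hne
    · exact h2 a i hne
  · rw [Matrix.fromBlocks_multiply]
    simp [h3]
  · rw [Matrix.fromBlocks_multiply]
    simp [h4]
  · rw [Matrix.fromBlocks_multiply, Matrix.fromBlocks_multiply]
    simp [h5]

/-- The exponents of a list with one more pair. -/
theorem CO_expo (p : ℝ × ℕ) (l : List (ℝ × ℕ)) :
    expo (p :: l) = Sum.elim (fun j : Fin p.2 => p.1 + ((p.2 : ℝ) - 1) / 2 - (j : ℕ)) (expo l) := by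
  funext x
  rcases x with j | x <;> rfl

theorem p_CO : Stmt_CO := by
  intro p l l' h
  have hc : Continuous fun x : Matrix (Idx l') (Idx l') ℂ =>
      Matrix.fromBlocks (jordan p.2) (0 : Matrix (Fin p.2) (Idx l') ℂ)
        (0 : Matrix (Idx l') (Fin p.2) ℂ) x :=
    Continuous.matrix_fromBlocks continuous_const continuous_const continuous_const continuous_id
  refine map_mem_closure hc h ?_
  intro x hx
  have h1 := CO_block (fun j : Fin p.2 => p.1 + ((p.2 : ℝ) - 1) / 2 - (j : ℕ)) (jordan p.2) _ _ _ _ hx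
  change Conj (expo (p :: l')) _ (expo (p :: l)) _
  rw [CO_expo, CO_expo]
  exact h1

end Pool.Agent.MPc20ce7
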