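import Pool.Agent.Work.MP_c20ce7_nt.Interface

/-!
# Block EM: elementary moves on multisegments
-/

set_option autoImplicit false

namespace Pool.Agent.MPc20ce7

theorem EM_symm {ι κ : Type} [Fintype ι] [DecidableEq ι] [Fintype κ] [DecidableEq κ] {e : ι → ℝ}
    {x : Matrix ι ι ℂ} {e' : κ → ℝ} {x' : Matrix κ κ ℂ} (hc : Conj e x e' x') :
    Conj e' x' e x := by
  obtain ⟨g, h, h1, h2, h3, h4, h5⟩ := hc
  refine ⟨h, g, h2, h1, h4, h3, ?_⟩
  have h6 : g * x * h = (g * h) * x' * (g * h) := by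
    rw [h5]
    simp only [Matrix.mul_assoc]
  rw [h6, h3, Matrix.one_mul, Matrix.mul_one]

theorem EM_append (hCO : Stmt_CO) (t l l' : List (ℝ × ℕ)) (h : Deg l l') :
    Deg (t ++ l) (t ++ l') := by
  induction t with
  | nil => exact h
  | cons p t ih => exact hCO p _ _ ih

theorem EM_perm (hPM : Stmt_PM) (hTR : Stmt_TR) (l l' : List (ℝ × ℕ)) (h : l.Perm l') :
    Deg l l' :=
  hTR.2.1 l l' (hPM l l' h)

theorem EM_geq (hCO : Stmt_CO) (l l' : List (ℝ × ℕ)) (h : Deg l l') (t : Par) :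
    GeqL ((l : Par) + t) ((l' : Par) + t) := by
  refine ⟨t.toList ++ l, t.toList ++ l', ?_, ?_, EM_append hCO _ _ _ h⟩
  · rw [← Multiset.coe_add, Multiset.coe_toList, add_comm]
  · rw [← Multiset.coe_add, Multiset.coe_toList, add_comm]

theorem EM_top (a b : ℤ) (h : a ≤ b + 1) :
    top (b : ℝ) ((b - a + 1).toNat) = (((a : ℝ) + b) / 2, (b - a + 1).toNat) := by
  have h1 : (((b - a + 1).toNat : ℕ) : ℝ) = (b : ℝ) - a + 1 := by
    have h2 : (((b - a + 1).toNat : ℕ) : ℤ) = b - a + 1 := Int.toNat_of_nonneg (by omega)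
    have h3 := congrArg (Int.cast : ℤ → ℝ) h2
    push_cast at h3
    exact h3
  rw [top, h1]
  refine Prod.ext ?_ rfl
  change (b : ℝ) - ((b : ℝ) - a + 1 - 1) / 2 = ((a : ℝ) + b) / 2
  ring

theorem EM_par2 (x y : ℤ × ℤ) (m : MS) : par (x ::ₘ y ::ₘ m) =
    (([(((x.1 : ℝ) + x.2) / 2, (x.2 - x.1 + 1).toNat),
      (((y.1 : ℝ) + y.2) / 2, (y.2 - y.1 + 1).toNat)] : List (ℝ × ℕ)) : Par) + par m := by
  rw [par, Multiset.map_cons, Multiset.map_cons, ← Multiset.cons_coe, ← Multiset.cons_coe,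
    Multiset.coe_nil, Multiset.cons_add, Multiset.cons_add, zero_add]
  rfl

theorem EM_par1 (x : ℤ × ℤ) (m : MS) : par (x ::ₘ m) =
    (([(((x.1 : ℝ) + x.2) / 2, (x.2 - x.1 + 1).toNat)] : List (ℝ × ℕ)) : Par) + par m := by
  rw [par, Multiset.map_cons, ← Multiset.cons_coe, Multiset.coe_nil, Multiset.cons_add, zero_add]
  rfl

theorem EM_cast (b d : ℤ) (h : b ≤ d) : (b : ℝ) + (((d - b).toNat : ℕ) : ℝ) = (d : ℝ) := by
  have h2 : (((d - b).toNat : ℕ) : ℤ) = d - b := Int.toNat_of_nonneg (by omega)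
  have h3 := congrArg (Int.cast : ℤ → ℝ) h2
  push_cast at h3
  rw [h3]
  ring

theorem p_EM (hPM : Stmt_PM) (hCO : Stmt_CO) (hTR : Stmt_TR) (hEL : Stmt_EL) (hZE : Stmt_ZE) :
    Stmt_EM := by
  refine ⟨?_, ?_⟩
  · intro a b d m hab hbd
    have h := hEL (b : ℝ) ((b - a + 1).toNat) 0 ((d - b).toNat) (Nat.zero_le _) (by omega)
    have e2 : (b - a + 1).toNat + (d - b).toNat = (d - a + 1).toNat := by omega
    have e3 : 0 + (d - b).toNat = (d - (b + 1) + 1).toNat := by omega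
    rw [EM_cast b d (by omega), e2, e3, EM_top a d (by omega), EM_top a b (by omega),
      EM_top (b + 1) d (by omega)] at h
    have d1 : Deg [(((a : ℝ) + d) / 2, (d - a + 1).toNat)]
        [top (b : ℝ) 0, (((a : ℝ) + d) / 2, (d - a + 1).toNat)] :=
      hTR.2.1 _ _ (EM_symm (hZE _ _))
    have d2 := hTR.1 _ _ _ (hTR.1 _ _ _ d1 (EM_perm hPM hTR _ _ (List.Perm.swap _ _ []))) h
    have h2 := EM_geq hCO _ _ d2 (par m)
    rw [EM_par1, EM_par2]
    exact h2
  · intro a b c d m hac hcb hbd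
    have h := hEL (b : ℝ) ((b - a + 1).toNat) ((b - c + 1).toNat) ((d - b).toNat)
      (by omega) (by omega)
    have e2 : (b - a + 1).toNat + (d - b).toNat = (d - a + 1).toNat := by omega
    have e3 : (b - c + 1).toNat + (d - b).toNat = (d - c + 1).toNat := by omega
    rw [EM_cast b d (by omega), e2, e3, EM_top a d (by omega), EM_top c b (by omega),
      EM_top a b (by omega), EM_top c d (by omega)] at h
    have h2 := EM_geq hCO _ _ h (par m)
    rw [EM_par2, EM_par2]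
    exact h2

end Pool.Agent.MPc20ce7
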