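import Pool.Agent.Work.MP_c20ce7_nt.Interface

/-!
# Block GE: degeneration of parameters in the list form
-/

set_option autoImplicit false

namespace Pool.Agent.MPc20ce7

theorem p_GE (h1 : Stmt_PM) (h2 : Stmt_TR) : Stmt_GE := by
  refine ⟨?_, ?_⟩
  · rintro φ φ' φ'' ⟨l, l', hl, hl', hd⟩ ⟨l1, l2, hl1, hl2, hd'⟩
    have hp : l'.Perm l1 := Multiset.coe_eq_coe.1 (hl'.trans hl1.symm)
    have hd1 : Deg l' l1 := h2.2.1 l' l1 (h1 l' l1 hp)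
    exact ⟨l, l2, hl, hl2, h2.1 _ _ _ (h2.1 _ _ _ hd hd1) hd'⟩
  · rintro φ φ' ⟨l, l', hl, hl', hd⟩
    exact h2.2.2 l l' φ φ' hl hl' hd

end Pool.Agent.MPc20ce7
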