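import Pool.Agent.Work.MP_c20ce7_nt.Interface

/-!
# Block TR: transitivity of degeneration and the passage to orbits
-/

set_option autoImplicit false

namespace Pool.Agent.MPc20ce7

/-- Equivariance: a point conjugate to the standard point of `l'` is in the closure of the orbit of `l`
if `l` degenerates to `l'`. -/
theorem TR_equi (h1 : Stmt_CJ) (l l' : List (ℝ × ℕ)) (hd : Deg l l') {ι : Type} [Fintype ι]
    [DecidableEq ι] (e : ι → ℝ) (y : Matrix ι ι ℂ) (hy : Conj e y (expo l') (nil l')) :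
    y ∈ closure {x : Matrix ι ι ℂ | Conj e x (expo l) (nil l)} := by
  obtain ⟨g, h, a1, a2, a3, a4, a5⟩ := hy
  have hc : Continuous fun z : Matrix (Idx l') (Idx l') ℂ => h * z * g :=
    (continuous_const.matrix_mul continuous_id).matrix_mul continuous_const
  have h2 := map_mem_closure (t := {x : Matrix ι ι ℂ | Conj e x (expo l) (nil l)}) hc hd ?_
  · rw [a5]
    exact h2
  · intro z hz
    exact h1.2.2 _ _ _ e (h * z * g) (expo l') z (expo l) (nil l) ⟨g, h, a1, a2, a3, a4, rfl⟩ hz

theorem p_TR (h1 : Stmt_CJ) (h2 : Stmt_PM) : Stmt_TR := by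
  refine ⟨?_, ?_, ?_⟩
  · intro l l' l'' hd hd'
    have h3 : {x : Matrix (Idx l'') (Idx l'') ℂ | Conj (expo l'') x (expo l') (nil l')} ⊆
        closure {x : Matrix (Idx l'') (Idx l'') ℂ | Conj (expo l'') x (expo l) (nil l)} :=
      fun y hy => TR_equi h1 l l' hd (expo l'') y hy
    exact closure_minimal h3 isClosed_closure hd'
  · intro l l' hc
    exact subset_closure (h1.2.1 _ _ _ _ _ _ hc)
  · intro l l' φ φ' hl hl' hd
    refine ⟨Idx l', inferInstance, inferInstance, expo l', ⟨nil l', l', hl', h1.1 _ _ _⟩, ?_⟩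
    rintro y ⟨l1, hl1, hy⟩
    have hp : l1.Perm l' := Multiset.coe_eq_coe.1 (hl1.trans hl'.symm)
    have hy' : Conj (expo l') y (expo l') (nil l') :=
      h1.2.2 _ _ _ _ _ _ _ _ _ hy (h2 l1 l' hp)
    refine closure_mono ?_ (TR_equi h1 l l' hd (expo l') y hy')
    intro x hx
    exact ⟨l, hl, hx⟩

end Pool.Agent.MPc20ce7
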