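import Pool.Agent.Work.MP_c20ce7_nt.Interface

set_option autoImplicit false

namespace Pool.Agent.MPc20ce7

/-- Block ZE. -/
theorem p_ZE (h1 : Stmt_EQ) : Stmt_ZE := by
  intro s l
  refine h1 (Idx ((s, 0) :: l)) (Idx l) (Equiv.emptySum (Fin 0) (Idx l)) (expo ((s, 0) :: l))
    (nil ((s, 0) :: l)) (expo l) (nil l) ?_ ?_
  · intro i
    match i with
    | Sum.inl j => exact Fin.elim0 j
    | Sum.inr x => rfl
  · intro i j
    match i, j with
    | Sum.inl i, _ => exact Fin.elim0 i
    | Sum.inr _, Sum.inl j => exact Fin.elim0 j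
    | Sum.inr x, Sum.inr y => rfl

end Pool.Agent.MPc20ce7
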