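import Pool.Agent.Work.MP_c20ce7_nt.Interface

/-!
# The combinatorial part: the two chains of crystal operations
-/

set_option autoImplicit false
set_option maxRecDepth 100000

namespace Pool.Agent.MPc20ce7

theorem contra_par (m : MS) : contra (par m) = par (dual m) := by
  unfold contra par dual
  rw [Multiset.map_map, Multiset.map_map]
  apply Multiset.map_congr rfl
  rintro ⟨a, b⟩ _
  simp only [Function.comp, Prod.mk.injEq]
  constructor
  · push_cast; ring
  · congr 1; ring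

theorem twist_par (t : ℤ) (m : MS) : twist t (par m) = par (shift t m) := by
  unfold twist par shift
  rw [Multiset.map_map, Multiset.map_map]
  apply Multiset.map_congr rfl
  rintro ⟨a, b⟩ _
  simp only [Function.comp, Prod.mk.injEq]
  constructor
  · push_cast; ring
  · congr 1; ring

theorem dual_dual (m : MS) : dual (dual m) = m := by
  unfold dual
  rw [Multiset.map_map]
  conv_rhs => rw [← Multiset.map_id m]
  apply Multiset.map_congr rfl
  rintro ⟨a, b⟩ _
  simp

variable {ABV : Par → Par → Prop}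

theorem abv_dual (h : Microlocal ABV) {M N : MS} (H : ABV (par M) (par N)) :
    ABV (par (dual M)) (par (dual N)) := by
  rw [← contra_par, ← contra_par]
  exact h.contragredient _ _ H

theorem upH (h : Microlocal ABV) (i : ℤ) {M N M' N' : MS} (H : ABV (par M') (par N'))
    (hM : IsMS M) (hN : IsMS N) (he : eps i M = eps i N) (h1 : red i M = M') (h2 : red i N = N') :
    ABV (par M) (par N) := by
  subst h1 h2
  exact (h.reduction i M N hM hN he).2 H

theorem downH (h : Microlocal ABV) (i : ℤ) {M N M' N' : MS} (H : ABV (par M) (par N))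
    (hM : IsMS M) (hN : IsMS N) (he : eps i M = eps i N) (h1 : red i M = M') (h2 : red i N = N') :
    ABV (par M') (par N') := by
  subst h1 h2
  exact (h.reduction i M N hM hN he).1 H

theorem upS (h : Microlocal ABV) (i : ℤ) {M N M' N' : MS} (H : ABV (par M') (par N'))
    (hM : IsMS (dual M)) (hN : IsMS (dual N)) (he : eps (-i) (dual M) = eps (-i) (dual N))
    (h1 : red (-i) (dual M) = dual M') (h2 : red (-i) (dual N) = dual N') :
    ABV (par M) (par N) := by
  have h3 := abv_dual h H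
  rw [← h1, ← h2] at h3
  have h4 := abv_dual h ((h.reduction (-i) _ _ hM hN he).2 h3)
  rwa [dual_dual, dual_dual] at h4

theorem ks_shift (h : Microlocal ABV) (t : ℤ) (M N : MS)
    (h1 : shift t {(1, 4), (2, 5), (1, 2), (2, 3), (3, 4), (4, 5)} = M)
    (h2 : shift t {(1, 2), (1, 2), (2, 4), (2, 4), (3, 3), (3, 3), (4, 5), (4, 5)} = N) :
    ABV (par M) (par N) := by
  subst h1 h2
  rw [← twist_par, ← twist_par]
  exact h.twisting _ _ _ h.kashiwaraSaito

theorem abv_MH (h : Microlocal ABV) : ABV (par segM) (par segH) := by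
  have h13 : ABV (par {(-3, -2), (-3, 0), (-2, -1), (-2, 1), (-1, 0), (0, 1)}) (par {(-3, -2), (-3, -2), (-2, 0), (-2, 0), (-1, -1), (-1, -1), (0, 1), (0, 1)}) := ks_shift h (-4) _ _ (by decide) (by decide)
  have h12 : ABV (par {(-3, -2), (-3, 0), (-2, -1), (-2, 2), (-1, 0), (0, 1)}) (par {(-3, -2), (-3, -2), (-2, 0), (-2, 0), (-1, -1), (-1, -1), (0, 1), (0, 2)}) := upS h (2) h13 (by decide) (by decide) (by decide) (by decide) (by decide)
  have h11 : ABV (par {(-3, -2), (-3, 0), (-2, -1), (-2, 3), (-1, 0), (0, 1)}) (par {(-3, -2), (-3, -2), (-2, 0), (-2, 0), (-1, -1), (-1, -1), (0, 1), (0, 3)}) := upS h (3) h12 (by decide) (by decide) (by decide) (by decide) (by decide)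
  have h10 : ABV (par {(-3, -2), (-3, 0), (-2, -1), (-2, 3), (-1, 0), (0, 1), (2, 2)}) (par {(-3, -2), (-3, -2), (-2, 0), (-2, 0), (-1, -1), (-1, -1), (0, 1), (0, 3), (2, 2)}) := upH h (2) h11 (by decide) (by decide) (by decide) (by decide) (by decide)
  have h9 : ABV (par {(-3, -2), (-3, 0), (-2, -1), (-2, 3), (-1, 0), (0, 1), (2, 2), (3, 3)}) (par {(-3, -2), (-3, -2), (-2, 0), (-2, 0), (-1, -1), (-1, -1), (0, 1), (0, 3), (2, 2), (3, 3)}) := upH h (3) h10 (by decide) (by decide) (by decide) (by decide) (by decide)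
  have h8 : ABV (par {(-3, -2), (-3, 1), (-2, -1), (-2, 3), (-1, 0), (0, 1), (2, 2), (3, 3)}) (par {(-3, -2), (-3, -2), (-2, 0), (-2, 1), (-1, -1), (-1, -1), (0, 1), (0, 3), (2, 2), (3, 3)}) := upS h (1) h9 (by decide) (by decide) (by decide) (by decide) (by decide)
  have h7 : ABV (par {(-3, -2), (-3, 2), (-2, -1), (-2, 3), (-1, 0), (0, 1), (2, 2), (3, 3)}) (par {(-3, -2), (-3, -2), (-2, 0), (-2, 2), (-1, -1), (-1, -1), (0, 1), (0, 3), (2, 2), (3, 3)}) := upS h (2) h8 (by decide) (by decide) (by decide) (by decide) (by decide)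
  have h6 : ABV (par {(-3, -2), (-3, 2), (-2, -1), (-2, 3), (-1, 0), (0, 1), (1, 2), (3, 3)}) (par {(-3, -2), (-3, -2), (-2, 0), (-2, 2), (-1, -1), (-1, -1), (0, 1), (0, 3), (1, 2), (3, 3)}) := upH h (1) h7 (by decide) (by decide) (by decide) (by decide) (by decide)
  have h5 : ABV (par {(-3, -2), (-3, 2), (-2, -1), (-2, 4), (-1, 0), (0, 1), (1, 2), (3, 4)}) (par {(-3, -2), (-3, -2), (-2, 0), (-2, 2), (-1, -1), (-1, -1), (0, 1), (0, 4), (1, 2), (3, 4)}) := upS h (4) h6 (by decide) (by decide) (by decide) (by decide) (by decide)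
  have h4 : ABV (par {(-3, -2), (-3, 3), (-2, -1), (-2, 4), (-1, 0), (0, 1), (1, 3), (3, 4)}) (par {(-3, -2), (-3, -2), (-2, 0), (-2, 3), (-1, -1), (-1, -1), (0, 1), (0, 4), (1, 3), (3, 4)}) := upS h (3) h5 (by decide) (by decide) (by decide) (by decide) (by decide)
  have h3 : ABV (par {(-3, -2), (-3, 3), (-2, -1), (-2, 4), (-1, 0), (0, 2), (1, 3), (3, 4)}) (par {(-3, -2), (-3, -2), (-2, 0), (-2, 3), (-1, -1), (-1, -1), (0, 2), (0, 4), (1, 3), (3, 4)}) := upS h (2) h4 (by decide) (by decide) (by decide) (by decide) (by decide)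
  have h2 : ABV (par {(-3, -2), (-3, 3), (-2, -1), (-2, 4), (-1, 1), (0, 2), (1, 3), (3, 4)}) (par {(-3, -2), (-3, -2), (-2, 1), (-2, 3), (-1, -1), (-1, -1), (0, 2), (0, 4), (1, 3), (3, 4)}) := upS h (1) h3 (by decide) (by decide) (by decide) (by decide) (by decide)
  have h1 : ABV (par {(-3, -2), (-3, 3), (-2, 0), (-2, 4), (-1, 1), (0, 2), (1, 3), (3, 4)}) (par {(-3, -2), (-3, -2), (-2, 1), (-2, 3), (-1, -1), (-1, 0), (0, 2), (0, 4), (1, 3), (3, 4)}) := upS h (0) h2 (by decide) (by decide) (by decide) (by decide) (by decide)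
  have h0 : ABV (par {(-3, -1), (-3, 3), (-2, 0), (-2, 4), (-1, 1), (0, 2), (1, 3), (3, 4)}) (par {(-3, -2), (-3, -1), (-2, 1), (-2, 3), (-1, -1), (-1, 0), (0, 2), (0, 4), (1, 3), (3, 4)}) := upS h (-1) h1 (by decide) (by decide) (by decide) (by decide) (by decide)
  exact h0

theorem abv_ML (h : Microlocal ABV) : ABV (par segM) (par segL) := by
  have h16 : ABV (par {(0, 1), (0, 3), (1, 2), (1, 4), (2, 3), (3, 4)}) (par {(0, 1), (0, 1), (1, 3), (1, 3), (2, 2), (2, 2), (3, 4), (3, 4)}) := ks_shift h (-1) _ _ (by decide) (by decide)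
  have h15 : ABV (par {(-1, -1), (0, 1), (0, 3), (1, 2), (1, 4), (2, 3), (3, 4)}) (par {(-1, -1), (0, 1), (0, 1), (1, 3), (1, 3), (2, 2), (2, 2), (3, 4), (3, 4)}) := upS h (-1) h16 (by decide) (by decide) (by decide) (by decide) (by decide)
  have h14 : ABV (par {(-2, -2), (-1, -1), (0, 1), (0, 3), (1, 2), (1, 4), (2, 3), (3, 4)}) (par {(-2, -2), (-1, -1), (0, 1), (0, 1), (1, 3), (1, 3), (2, 2), (2, 2), (3, 4), (3, 4)}) := upS h (-2) h15 (by decide) (by decide) (by decide) (by decide) (by decide)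
  have h13 : ABV (par {(-3, -2), (-1, -1), (0, 1), (0, 3), (1, 2), (1, 4), (2, 3), (3, 4)}) (par {(-3, -2), (-1, -1), (0, 1), (0, 1), (1, 3), (1, 3), (2, 2), (2, 2), (3, 4), (3, 4)}) := upH h (-3) h14 (by decide) (by decide) (by decide) (by decide) (by decide)
  have h12 : ABV (par {(-3, -2), (-2, -1), (0, 1), (0, 3), (1, 2), (1, 4), (2, 3), (3, 4)}) (par {(-3, -2), (-2, -1), (0, 1), (0, 1), (1, 3), (1, 3), (2, 2), (2, 2), (3, 4), (3, 4)}) := upH h (-2) h13 (by decide) (by decide) (by decide) (by decide) (by decide)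
  have h11 : ABV (par {(-3, -2), (-2, -1), (-1, 1), (-1, 3), (1, 2), (1, 4), (2, 3), (3, 4)}) (par {(-3, -2), (-2, -1), (-1, 1), (-1, 1), (1, 3), (1, 3), (2, 2), (2, 2), (3, 4), (3, 4)}) := upH h (-1) h12 (by decide) (by decide) (by decide) (by decide) (by decide)
  have h10 : ABV (par {(-3, -2), (-2, -1), (-2, 3), (-1, 1), (1, 2), (1, 4), (2, 3), (3, 4)}) (par {(-3, -2), (-2, -1), (-2, 1), (-1, 1), (1, 3), (1, 3), (2, 2), (2, 2), (3, 4), (3, 4)}) := upH h (-2) h11 (by decide) (by decide) (by decide) (by decide) (by decide)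
  have h9 : ABV (par {(-3, -2), (-2, -1), (-2, 3), (-1, 1), (0, 0), (0, 2), (0, 4), (2, 3), (3, 4)}) (par {(-3, -2), (-2, -1), (-2, 1), (-1, 1), (0, 0), (0, 3), (0, 3), (2, 2), (2, 2), (3, 4), (3, 4)}) := upH h (0) h10 (by decide) (by decide) (by decide) (by decide) (by decide)
  have h8 : ABV (par {(-3, -2), (-2, -1), (-2, 3), (-1, 1), (0, 0), (0, 2), (0, 4), (1, 3), (3, 4)}) (par {(-3, -2), (-2, -1), (-2, 1), (-1, 1), (0, 0), (0, 3), (0, 3), (1, 2), (2, 2), (3, 4), (3, 4)}) := upH h (1) h9 (by decide) (by decide) (by decide) (by decide) (by decide)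
  have h7 : ABV (par {(-3, -2), (-2, -1), (-2, 3), (-1, 1), (0, 2), (1, 3), (1, 4), (3, 4)}) (par {(-3, -2), (-2, -1), (-2, 1), (-1, 1), (0, 0), (1, 2), (1, 3), (1, 3), (2, 2), (3, 4), (3, 4)}) := downH h (0) h8 (by decide) (by decide) (by decide) (by decide) (by decide)
  have h6 : ABV (par {(-3, -2), (-2, -1), (-2, 3), (-1, 1), (0, 2), (0, 4), (1, 3), (3, 4)}) (par {(-3, -2), (-2, -1), (-2, 1), (-1, 1), (0, 0), (0, 3), (1, 2), (1, 3), (2, 2), (3, 4), (3, 4)}) := upH h (0) h7 (by decide) (by decide) (by decide) (by decide) (by decide)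
  have h5 : ABV (par {(-3, -2), (-2, 0), (-2, 3), (-1, 1), (0, 2), (0, 4), (1, 3), (3, 4)}) (par {(-3, -2), (-2, -1), (-2, 1), (-1, 1), (0, 0), (0, 0), (0, 3), (1, 2), (1, 3), (2, 2), (3, 4), (3, 4)}) := upS h (0) h6 (by decide) (by decide) (by decide) (by decide) (by decide)
  have h4 : ABV (par {(-3, -1), (-2, 0), (-2, 3), (-1, 1), (0, 2), (0, 4), (1, 3), (3, 4)}) (par {(-3, -2), (-2, -1), (-2, 1), (-1, -1), (-1, 1), (0, 0), (0, 0), (0, 3), (1, 2), (1, 3), (2, 2), (3, 4), (3, 4)}) := upS h (-1) h5 (by decide) (by decide) (by decide) (by decide) (by decide)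
  have h3 : ABV (par {(-3, -1), (-2, 0), (-2, 3), (-1, 1), (-1, 4), (0, 2), (1, 3), (3, 4)}) (par {(-3, -2), (-2, -1), (-2, 1), (-1, -1), (-1, 0), (-1, 1), (0, 0), (0, 3), (1, 2), (1, 3), (2, 2), (3, 4), (3, 4)}) := upH h (-1) h4 (by decide) (by decide) (by decide) (by decide) (by decide)
  have h2 : ABV (par {(-3, -3), (-3, -1), (-3, 3), (-2, 0), (-1, 1), (-1, 4), (0, 2), (1, 3), (3, 4)}) (par {(-3, -3), (-3, -2), (-3, 1), (-2, -1), (-1, -1), (-1, 0), (-1, 1), (0, 0), (0, 3), (1, 2), (1, 3), (2, 2), (3, 4), (3, 4)}) := upH h (-3) h3 (by decide) (by decide) (by decide) (by decide) (by decide)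
  have h1 : ABV (par {(-3, -3), (-3, -1), (-3, 3), (-2, 0), (-2, 4), (-1, 1), (0, 2), (1, 3), (3, 4)}) (par {(-3, -3), (-3, -2), (-3, 1), (-2, -1), (-2, 1), (-1, -1), (-1, 0), (0, 0), (0, 3), (1, 2), (1, 3), (2, 2), (3, 4), (3, 4)}) := upH h (-2) h2 (by decide) (by decide) (by decide) (by decide) (by decide)
  have h0 : ABV (par {(-3, -1), (-3, 3), (-2, 0), (-2, 4), (-1, 1), (0, 2), (1, 3), (3, 4)}) (par {(-3, -3), (-3, -2), (-2, -1), (-2, 1), (-2, 1), (-1, -1), (-1, 0), (0, 0), (0, 3), (1, 2), (1, 3), (2, 2), (3, 4), (3, 4)}) := downH h (-3) h1 (by decide) (by decide) (by decide) (by decide) (by decide)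
  exact h0

theorem abv_ML' (h : Microlocal ABV) : ABV (par (segM + {(0, 0)})) (par (segL + {(0, 0)})) :=
  upS h 0 (abv_ML h) (by decide) (by decide) (by decide) (by decide) (by decide)

theorem not_abv_MH' (h : Microlocal ABV) : ¬ ABV (par (segM + {(0, 0)})) (par (segH + {(0, 0)})) := by
  intro H
  have h1 := abv_dual h H
  have h2 := h.crystal 0 _ _ (by decide) (by decide) h1
  revert h2
  decide

end Pool.Agent.MPc20ce7
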