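import Pool.Agent.Work.MP_c20ce7_nt.Final
import Pool.Agent.Work.MP_c20ce7_lab.B_ULG
import Pool.Agent.Work.MP_c20ce7_lab.B_USA
import Pool.Agent.Work.MP_c20ce7_lab.B_LNE
import Pool.Agent.Work.MP_c20ce7_lab.B_GRA
import Pool.Agent.Work.MP_c20ce7_lab.B_AUT
import Pool.Agent.Work.MP_c20ce7_lab.B_BLK
import Pool.Agent.Work.MP_c20ce7_lab.B_HAT
import Pool.Agent.Work.MP_c20ce7_lab.B_OPN
import Pool.Agent.Work.MP_c20ce7_lab.B_CTT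
import Pool.Agent.Work.MP_c20ce7_lab.B_PJ
import Pool.Agent.Work.MP_c20ce7_lab.B_CQJ
import Pool.Agent.Work.MP_c20ce7_lab.B_COE
import Pool.Agent.Work.MP_c20ce7_lab.B_RES
import Pool.Agent.Work.MP_c20ce7_lab.B_BXC
import Pool.Agent.Work.MP_c20ce7_lab.B_BXU
import Pool.Agent.Work.MP_c20ce7_lab.B_CON
import Pool.Agent.Work.MP_c20ce7_lab.B_MPT
import Pool.Agent.Work.MP_c20ce7_lab.B_STD
import Pool.Agent.Work.MP_c20ce7_lab.B_ORM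
import Pool.Agent.Work.MP_c20ce7_lab.B_ORI
import Pool.Agent.Work.MP_c20ce7_lab.B_TRB
import Pool.Agent.Work.MP_c20ce7_lab.B_ORB
import Pool.Agent.Work.MP_c20ce7_lab.B_SUP
import Pool.Agent.Work.MP_c20ce7_lab.B_GM
import Pool.Agent.Work.MP_c20ce7_lab.B_GH
import Pool.Agent.Work.MP_c20ce7_lab.B_GT
import Pool.Agent.Work.MP_c20ce7_lab.B_GS
import Pool.Agent.Work.MP_c20ce7_lab.B_QJE
import Pool.Agent.Work.MP_c20ce7_lab.B_UL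
import Pool.Agent.Work.MP_c20ce7_lab.B_US
import Pool.Agent.Work.MP_c20ce7_dm8.A6
import Pool.Agent.Work.MP_c20ce7_dm82.TR
import Pool.Agent.Work.MP_c20ce7_dm82.TR2
import Pool.Agent.Work.MP_c20ce7_up.All
import Pool.Agent.Work.MP_c20ce7_lab.B_C5

/-!
# Composition of the blocks of the labels
-/

set_option autoImplicit false

open Pool.Agent.MPc20ce7

noncomputable section

namespace Pool.DM

theorem cp_GS : Stmt_GS :=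
  p_GS stmt_UPSTEP
    (p_UL p_MPT p_STD p_BXC p_LNE
      (p_ULG p_MPT p_BXC p_STD p_RES (p_GRA p_COE) p_AUT (p_BLK p_AUT) p_HAT p_OPN p_CTT p_PJ p_CQJ stmt_HST)
      stmt_HST)
    (p_US p_MPT p_STD p_BXU p_RES p_USA p_C5)
    (p_QJE p_MPT p_STD p_BXU p_RES p_HAT) p_BXU

theorem cp_ORB : Stmt_ORB := p_ORB p_STD p_ORM p_ORI p_TRB

theorem cp_ABF : Stmt_ABF := p_ABF p_CON cp_ORB (p_SUP stmt_SCH) p_MPT stmt_REX

theorem cp_GH : Stmt_GH := p_GH stmt_REX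

theorem cp_GT : Stmt_GT := p_GT stmt_TRA

theorem cp_GM : Stmt_GM := p_GM p_ORM

/-- The example with `n = 35`, from the Kashiwara-Saito pair. -/
theorem cp_final (hB : Stmt_BASE) :
    ∃ φ φ' ψ : Par, IsPar φ ∧ IsPar φ' ∧ IsPar ψ ∧ dim φ = 35 ∧ Geq φ φ' ∧ Geq ψ φ ∧ ABV φ ψ ∧ ABV φ' ψ ∧
      ABV (lift 1 φ') (lift 1 ψ) ∧ ¬ ABV (lift 1 φ) (lift 1 ψ) :=
  final_of (p_CHH cp_GS cp_GM cp_GH hB) (p_CHL cp_GS cp_GM cp_GH cp_GT hB) cp_GT cp_GH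
    cp_ABF cp_ORB

/-- The form used by the outer layer. -/
theorem cp_h35 (hB : Stmt_BASE) :
    ∃ φ φ' ψ : Par, dim φ = 35 ∧ Geq φ φ' ∧ ABV φ ψ ∧ ABV φ' ψ ∧ ABV (lift 1 φ') (lift 1 ψ) ∧
      ¬ ABV (lift 1 φ) (lift 1 ψ) := by
  obtain ⟨φ, φ', ψ, _, _, _, h1, h2, _, h3, h4, h5, h6⟩ := cp_final hB
  exact ⟨φ, φ', ψ, h1, h2, h3, h4, h5, h6⟩

/-- Q1 has a negative answer for the parameters `⊕ |.|^s ⊗ S_k`. -/
theorem cp_notQ1 (hB : Stmt_BASE) : ¬ Q1 := by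
  obtain ⟨φ, φ', ψ, p1, p2, p3, h1, h2, _, h3, h4, h5, h6⟩ := cp_final hB
  exact fun h => h6 (h 1 φ φ' ψ p1 p2 p3 h2 h3 h4 h5)

end Pool.DM
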