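import Pool.Agent.Work.MP_c20ce7_nt.Comp
import Pool.Agent.Work.MP_c20ce7_tg.B_BAS
import Pool.Agent.Work.MP_c20ce7_tg.B_EVM
import Pool.Agent.Work.MP_c20ce7_tg.B_GEN
import Pool.Agent.Work.MP_c20ce7_tg.B_IND
import Pool.Agent.Work.MP_c20ce7_tg.B_MIN
import Pool.Agent.Work.MP_c20ce7_tg.B_RNK
import Pool.Agent.Work.MP_c20ce7_tg.B_TG
import Pool.Agent.Work.MP_c20ce7_tg.B_TN
import Pool.Agent.Work.MP_c20ce7_dm29.EXP
import Pool.Agent.Work.MP_c20ce7_dm82.OWN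
import Pool.Agent.Work.MP_c20ce7_own2.OWN2

/-!
# Composition: the target side of the Kashiwara-Saito pair
-/

set_option autoImplicit false

open Pool.Agent.MPc20ce7

noncomputable section

namespace Pool.DM

theorem cp_EXP : Stmt_EXP := by
  intro σ _ _ L _ _ W φ hW h
  exact hW.exists_point φ h

theorem cp_TG : Stmt_TG := p_TG (p_GEN p_MIN p_RNK p_EVM p_MPT) (p_IND p_MPT) cp_EXP stmt_SCH stmt_HST p_STD

theorem cp_OW2 : Stmt_OW2 := by
  intro ι κ _ _ e L _ _ W M hS hE hM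
  exact lab_of_suppEq stmt_HST stmt_OWN e M L W hS hE hM

theorem cp_BASE (h : Stmt_SRC) : Stmt_BASE := p_BAS cp_TG (p_TN p_STD stmt_HST p_MPT) cp_OW2 h

/-- The form used by the outer layer, from the source side of the Kashiwara-Saito pair. -/
theorem cp_h35_of_SRC (h : Stmt_SRC) :
    ∃ φ φ' ψ : Par, dim φ = 35 ∧ Geq φ φ' ∧ ABV φ ψ ∧ ABV φ' ψ ∧ ABV (lift 1 φ') (lift 1 ψ) ∧
      ¬ ABV (lift 1 φ) (lift 1 ψ) := cp_h35 (cp_BASE h)

end Pool.DM
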