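import Pool.Agent.Work.MP_c20ce7_nt.Interface

/-! # Block EL: the elementary degeneration -/

set_option autoImplicit false

namespace Pool.Agent.MPc20ce7

open Filter Topology

theorem EL_sum {n : ℕ} (c : ℕ) (f : Fin n → ℂ) (h : ∀ k : Fin n, (k : ℕ) ≠ c → f k = 0) :
    ∑ k, f k = if hc : c < n then f ⟨c, hc⟩ else 0 := by
  split_ifs with hc
  · exact Finset.sum_eq_single _ (fun k _ hk => h k fun e => hk (Fin.ext e))
      (fun hk => absurd (Finset.mem_univ _) hk)
  · exact Finset.sum_eq_zero fun k _ => h k fun e => hc (e ▸ k.2)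

/-- The index set of two pairs. -/
abbrev EL_I (p n : ℕ) := Fin p ⊕ (Fin n ⊕ Empty)

theorem EL_sumI {p n : ℕ} (f : EL_I p n → ℂ) :
    ∑ k, f k = ∑ k : Fin p, f (Sum.inl k) + ∑ k : Fin n, f (Sum.inr (Sum.inl k)) := by
  rw [Fintype.sum_sum_type, Fintype.sum_sum_type]
  simp

/-- The standard point. -/
def EL_nil (p n : ℕ) : Matrix (EL_I p n) (EL_I p n) ℂ
  | Sum.inl i, Sum.inl j => if (i : ℕ) + 1 = j then 1 else 0
  | Sum.inr (Sum.inl i), Sum.inr (Sum.inl j) => if (i : ℕ) + 1 = j then 1 else 0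
  | _, _ => 0

/-- The perturbation. -/
def EL_x (p n D : ℕ) (t : ℂ) : Matrix (EL_I p n) (EL_I p n) ℂ
  | Sum.inl i, Sum.inl j => if (i : ℕ) + 1 = j then 1 else 0
  | Sum.inr (Sum.inl i), Sum.inr (Sum.inl j) => if (i : ℕ) + 1 = j then 1 else 0
  | Sum.inr (Sum.inl i), Sum.inl j => if (i : ℕ) + 1 = D ∧ (j : ℕ) = 0 then t else 0
  | _, _ => 0

/-- The matrix `h`. -/
def EL_h (p r D : ℕ) (t : ℂ) : Matrix (EL_I p (r + D)) (EL_I (p + D) r) ℂ
  | Sum.inl i, Sum.inl j => if (i : ℕ) + D = j then 1 else 0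
  | Sum.inl i, Sum.inr (Sum.inl j) => if (i : ℕ) = j then -1 else 0
  | Sum.inr (Sum.inl i), Sum.inl j => if (i : ℕ) = j ∧ (j : ℕ) < D then t else 0
  | Sum.inr (Sum.inl i), Sum.inr (Sum.inl j) => if (i : ℕ) = j + D then t else 0
  | _, _ => 0

/-- The matrix `g`. -/
noncomputable def EL_g (p r D : ℕ) (t : ℂ) : Matrix (EL_I (p + D) r) (EL_I p (r + D)) ℂ
  | Sum.inl i, Sum.inl j => if (i : ℕ) = j + D then 1 else 0
  | Sum.inl i, Sum.inr (Sum.inl j) => if (i : ℕ) = j then t⁻¹ else 0
  | Sum.inr (Sum.inl i), Sum.inr (Sum.inl j) => if (i : ℕ) + D = j then t⁻¹ else 0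
  | _, _ => 0

theorem EL_hg (p r D : ℕ) (hrp : r ≤ p) (t : ℂ) (ht : t ≠ 0) : EL_h p r D t * EL_g p r D t = 1 := by
  ext i j
  rw [Matrix.mul_apply, EL_sumI, Matrix.one_apply]
  rcases i with i | i | i
  · rcases j with j | j | j
    · rw [EL_sum (i + D) _ (fun k hk => by
        simp only [EL_h]; rw [if_neg (fun e => hk e.symm), zero_mul])]
      rw [Finset.sum_eq_zero (fun k _ => by simp [EL_g]), add_zero]
      have := i.2
      have := j.2
      simp only [EL_h, EL_g, Sum.inl.injEq, Fin.ext_iff]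
      split_ifs <;> first | omega | simp
    · rw [EL_sum (i + D) _ (fun k hk => by
        simp only [EL_h]; rw [if_neg (fun e => hk e.symm), zero_mul]),
        EL_sum i _ (fun k hk => by
        simp only [EL_h]; rw [if_neg (fun e => hk e.symm), zero_mul])]
      have := i.2
      have := j.2
      simp only [EL_h, EL_g]
      rw [if_neg (by simp : ¬ (Sum.inl i : EL_I p (r + D)) = Sum.inr (Sum.inl j))]
      split_ifs <;> first | omega | simp
    · exact j.elim
  · rcases j with j | j | j
    · rw [EL_sum (j + D) _ (fun k hk => by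
        simp only [EL_g]; rw [if_neg (fun e => hk e), mul_zero])]
      rw [Finset.sum_eq_zero (fun k _ => by simp [EL_g]), add_zero]
      have := i.2
      have := j.2
      simp only [EL_h, EL_g]
      rw [if_neg (by simp : ¬ (Sum.inr (Sum.inl i) : EL_I p (r + D)) = Sum.inl j)]
      split_ifs <;> first | omega | simp
    · rw [EL_sum j _ (fun k hk => by
        simp only [EL_g]; rw [if_neg (fun e => hk e), mul_zero]),
        EL_sum (j - D) _ (fun k hk => by
        simp only [EL_g]; rw [if_neg (fun e => hk (by omega)), mul_zero])]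
      have := i.2
      have := j.2
      simp only [EL_h, EL_g, Sum.inr.injEq, Sum.inl.injEq, Fin.ext_iff]
      split_ifs <;> first | omega | simp [ht]
    · exact j.elim
  · exact i.elim

theorem EL_xh (p r D : ℕ) (hrp : r ≤ p) (hD : 1 ≤ D) (t : ℂ) :
    EL_x p (r + D) D t * EL_h p r D t = EL_h p r D t * EL_nil (p + D) r := by
  ext i j
  rw [Matrix.mul_apply, EL_sumI, Matrix.mul_apply, EL_sumI]
  rcases i with i | i | i
  · rcases j with j | j | j
    · have e1 := EL_sum (i + 1) (fun k : Fin p => EL_x p (r + D) D t (Sum.inl i) (Sum.inl k) *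
        EL_h p r D t (Sum.inl k) (Sum.inl j)) (fun k hk => by
          simp only [EL_x]; rw [if_neg (fun e => hk e.symm), zero_mul])
      have e2 := EL_sum (i + D) (fun k : Fin (p + D) => EL_h p r D t (Sum.inl i) (Sum.inl k) *
        EL_nil (p + D) r (Sum.inl k) (Sum.inl j)) (fun k hk => by
          simp only [EL_h]; rw [if_neg (fun e => hk e.symm), zero_mul])
      have e3 : ∑ k : Fin (r + D), EL_x p (r + D) D t (Sum.inl i) (Sum.inr (Sum.inl k)) *
        EL_h p r D t (Sum.inr (Sum.inl k)) (Sum.inl j) = 0 :=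
          Finset.sum_eq_zero (fun k _ => by simp only [EL_x, zero_mul])
      have e4 : ∑ k : Fin r, EL_h p r D t (Sum.inl i) (Sum.inr (Sum.inl k)) *
        EL_nil (p + D) r (Sum.inr (Sum.inl k)) (Sum.inl j) = 0 :=
          Finset.sum_eq_zero (fun k _ => by simp only [EL_nil, mul_zero])
      rw [e1, e2, e3, e4]
      have := i.2
      have := j.2
      simp only [EL_h, EL_nil, EL_x, and_true, true_and]
      split_ifs <;> first | omega | simp
    · have e1 := EL_sum (i + 1) (fun k : Fin p => EL_x p (r + D) D t (Sum.inl i) (Sum.inl k) *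
        EL_h p r D t (Sum.inl k) (Sum.inr (Sum.inl j))) (fun k hk => by
          simp only [EL_x]; rw [if_neg (fun e => hk e.symm), zero_mul])
      have e2 : ∑ k : Fin (p + D), EL_h p r D t (Sum.inl i) (Sum.inl k) *
        EL_nil (p + D) r (Sum.inl k) (Sum.inr (Sum.inl j)) = 0 :=
          Finset.sum_eq_zero (fun k _ => by simp only [EL_nil, mul_zero])
      have e3 : ∑ k : Fin (r + D), EL_x p (r + D) D t (Sum.inl i) (Sum.inr (Sum.inl k)) *
        EL_h p r D t (Sum.inr (Sum.inl k)) (Sum.inr (Sum.inl j)) = 0 :=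
          Finset.sum_eq_zero (fun k _ => by simp only [EL_x, zero_mul])
      have e4 := EL_sum i (fun k : Fin r => EL_h p r D t (Sum.inl i) (Sum.inr (Sum.inl k)) *
        EL_nil (p + D) r (Sum.inr (Sum.inl k)) (Sum.inr (Sum.inl j))) (fun k hk => by
          simp only [EL_h]; rw [if_neg (fun e => hk e.symm), zero_mul])
      rw [e1, e2, e3, e4]
      have := i.2
      have := j.2
      simp only [EL_h, EL_nil, EL_x, and_true, true_and]
      split_ifs <;> first | omega | simp
    · exact j.elim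
  · rcases j with j | j | j
    · have e1 := EL_sum 0 (fun k : Fin p => EL_x p (r + D) D t (Sum.inr (Sum.inl i)) (Sum.inl k) *
        EL_h p r D t (Sum.inl k) (Sum.inl j)) (fun k hk => by
          simp only [EL_x]; rw [if_neg (fun e => hk e.2), zero_mul])
      have e2 := EL_sum i (fun k : Fin (p + D) => EL_h p r D t (Sum.inr (Sum.inl i)) (Sum.inl k) *
        EL_nil (p + D) r (Sum.inl k) (Sum.inl j)) (fun k hk => by
          simp only [EL_h]; rw [if_neg (fun e => hk e.1.symm), zero_mul])
      have e3 := EL_sum (i + 1) (fun k : Fin (r + D) =>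
        EL_x p (r + D) D t (Sum.inr (Sum.inl i)) (Sum.inr (Sum.inl k)) *
        EL_h p r D t (Sum.inr (Sum.inl k)) (Sum.inl j)) (fun k hk => by
          simp only [EL_x]; rw [if_neg (fun e => hk e.symm), zero_mul])
      have e4 : ∑ k : Fin r, EL_h p r D t (Sum.inr (Sum.inl i)) (Sum.inr (Sum.inl k)) *
        EL_nil (p + D) r (Sum.inr (Sum.inl k)) (Sum.inl j) = 0 :=
          Finset.sum_eq_zero (fun k _ => by simp only [EL_nil, mul_zero])
      rw [e1, e2, e3, e4]
      have := i.2
      have := j.2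
      simp only [EL_h, EL_nil, EL_x, and_true, true_and]
      split_ifs <;> first | omega | simp
    · have e1 := EL_sum 0 (fun k : Fin p => EL_x p (r + D) D t (Sum.inr (Sum.inl i)) (Sum.inl k) *
        EL_h p r D t (Sum.inl k) (Sum.inr (Sum.inl j))) (fun k hk => by
          simp only [EL_x]; rw [if_neg (fun e => hk e.2), zero_mul])
      have e2 : ∑ k : Fin (p + D), EL_h p r D t (Sum.inr (Sum.inl i)) (Sum.inl k) *
        EL_nil (p + D) r (Sum.inl k) (Sum.inr (Sum.inl j)) = 0 :=
          Finset.sum_eq_zero (fun k _ => by simp only [EL_nil, mul_zero])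
      have e3 := EL_sum (i + 1) (fun k : Fin (r + D) =>
        EL_x p (r + D) D t (Sum.inr (Sum.inl i)) (Sum.inr (Sum.inl k)) *
        EL_h p r D t (Sum.inr (Sum.inl k)) (Sum.inr (Sum.inl j))) (fun k hk => by
          simp only [EL_x]; rw [if_neg (fun e => hk e.symm), zero_mul])
      have e4 := EL_sum (i - D) (fun k : Fin r =>
        EL_h p r D t (Sum.inr (Sum.inl i)) (Sum.inr (Sum.inl k)) *
        EL_nil (p + D) r (Sum.inr (Sum.inl k)) (Sum.inr (Sum.inl j))) (fun k hk => by
          simp only [EL_h]; rw [if_neg (fun e => hk (by omega)), zero_mul])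
      rw [e1, e2, e3, e4]
      have := i.2
      have := j.2
      simp only [EL_h, EL_nil, EL_x, and_true, true_and]
      split_ifs <;> first | omega | simp
    · exact j.elim
  · exact i.elim

theorem EL_gh (p r D : ℕ) (hrp : r ≤ p) (t : ℂ) (ht : t ≠ 0) : EL_g p r D t * EL_h p r D t = 1 := by
  refine (Matrix.mul_eq_one_comm_of_card_eq _ _ _ ?_).1 (EL_hg p r D hrp t ht)
  simp only [Fintype.card_sum, Fintype.card_fin, Fintype.card_empty]
  omega

/-- The exponents. -/
noncomputable def EL_e (b b' : ℝ) (p n : ℕ) : EL_I p n → ℝ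
  | Sum.inl j => b - (j : ℕ)
  | Sum.inr (Sum.inl j) => b' - (j : ℕ)
  | _ => 0

theorem EL_conj (b : ℝ) (p r D : ℕ) (hrp : r ≤ p) (hD : 1 ≤ D) (t : ℂ) (ht : t ≠ 0) :
    Conj (EL_e b (b + D) p (r + D)) (EL_x p (r + D) D t)
      (EL_e (b + D) b (p + D) r) (EL_nil (p + D) r) := by
  refine ⟨EL_g p r D t, EL_h p r D t, ?_, ?_, EL_gh p r D hrp t ht, EL_hg p r D hrp t ht, ?_⟩
  · rintro (i | i | i) (j | j | j) h <;> simp only [EL_g, ne_eq, ite_eq_right_iff, not_forall] at h
    · obtain ⟨h, -⟩ := h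
      simp only [EL_e]; rw [h]; push_cast; ring
    · obtain ⟨h, -⟩ := h
      simp only [EL_e]; rw [h]
    · exact j.elim
    · exact absurd trivial h
    · obtain ⟨h, -⟩ := h
      simp only [EL_e]; rw [← h]; push_cast; ring
    · exact j.elim
    · exact i.elim
    · exact i.elim
    · exact i.elim
  · rintro (i | i | i) (j | j | j) h <;> simp only [EL_h, ne_eq, ite_eq_right_iff, not_forall] at h
    · obtain ⟨h, -⟩ := h
      simp only [EL_e]; rw [← h]; push_cast; ring
    · obtain ⟨h, -⟩ := h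
      simp only [EL_e]; rw [h]
    · exact j.elim
    · obtain ⟨⟨h, -⟩, -⟩ := h
      simp only [EL_e]; rw [h]
    · obtain ⟨h, -⟩ := h
      simp only [EL_e]; rw [h]; push_cast; ring
    · exact j.elim
    · exact i.elim
    · exact i.elim
    · exact i.elim
  · rw [← EL_xh p r D hrp hD t, Matrix.mul_assoc, EL_hg p r D hrp t ht, Matrix.mul_one]

theorem EL_expo (b b' : ℝ) (p n : ℕ) : expo [top b p, top b' n] = EL_e b b' p n := by
  funext i
  rcases i with i | i | i
  · simp only [expo, top, EL_e]; ring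
  · simp only [expo, top, EL_e]; ring
  · exact i.elim

theorem EL_nil_eq (b b' : ℝ) (p n : ℕ) : nil [top b p, top b' n] = EL_nil p n := by
  refine Matrix.ext fun i j => ?_
  rcases i with i | i | i
  · rcases j with j | j | j
    · rfl
    · rfl
    · exact j.elim
  · rcases j with j | j | j
    · rfl
    · rfl
    · exact j.elim
  · exact i.elim

theorem EL_x_eq (p n D : ℕ) (t : ℂ) :
    EL_x p n D t = EL_nil p n + t • (EL_x p n D 1 - EL_nil p n) := by
  ext i j
  simp only [Matrix.add_apply, Matrix.smul_apply, Matrix.sub_apply, smul_eq_mul]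
  rcases i with i | i | i
  · rcases j with j | j | j
    · simp only [EL_x, EL_nil]; ring
    · simp only [EL_x, EL_nil]; ring
    · exact j.elim
  · rcases j with j | j | j
    · simp only [EL_x, EL_nil]; split_ifs <;> ring
    · simp only [EL_x, EL_nil]; ring
    · exact j.elim
  · exact i.elim

theorem p_EL : Stmt_EL := by
  intro b p r D hrp hD
  have h1 : EL_nil p (r + D) ∈ closure {x : Matrix (EL_I p (r + D)) (EL_I p (r + D)) ℂ |
      Conj (EL_e b (b + D) p (r + D)) x (EL_e (b + D) b (p + D) r) (EL_nil (p + D) r)} := by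
    refine mem_closure_of_tendsto (b := 𝓝[≠] (0 : ℂ))
      (f := fun t : ℂ => EL_x p (r + D) D t) ?_ ?_
    · have h2 : Continuous fun t : ℂ => EL_x p (r + D) D t := by
        have h4 : (fun t : ℂ => EL_x p (r + D) D t) = fun t : ℂ =>
            EL_nil p (r + D) + t • (EL_x p (r + D) D 1 - EL_nil p (r + D)) :=
          funext fun t => EL_x_eq p (r + D) D t
        rw [h4]
        exact continuous_const.add (continuous_id.smul continuous_const)
      have h3 := (h2.tendsto 0).mono_left (nhdsWithin_le_nhds (s := {0}ᶜ))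
      have h5 : EL_x p (r + D) D 0 = EL_nil p (r + D) := by
        rw [EL_x_eq, zero_smul, add_zero]
      rwa [h5] at h3
    · filter_upwards [self_mem_nhdsWithin] with t ht
      exact EL_conj b p r D hrp hD t ht
  have e1 := EL_expo b (b + D) p (r + D)
  have e2 := EL_expo (b + D) b (p + D) r
  have e3 := EL_nil_eq b (b + D) p (r + D)
  have e4 := EL_nil_eq (b + D) b (p + D) r
  unfold Deg
  rw [e1, e2, e3, e4]
  exact h1

end Pool.Agent.MPc20ce7
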