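import Pool.Agent.Work.MP_c20ce7_nt.Comb
import Pool.Agent.Work.MP_c20ce7_nt.B_CJ
import Pool.Agent.Work.MP_c20ce7_nt.B_EQ
import Pool.Agent.Work.MP_c20ce7_nt.B_PM
import Pool.Agent.Work.MP_c20ce7_nt.B_CO
import Pool.Agent.Work.MP_c20ce7_nt.B_TR
import Pool.Agent.Work.MP_c20ce7_nt.EL
import Pool.Agent.Work.MP_c20ce7_nt.B_ZE
import Pool.Agent.Work.MP_c20ce7_nt.B_EM
import Pool.Agent.Work.MP_c20ce7_nt.B_GE
import Pool.Agent.Work.MP_c20ce7_nt.B_CH

/-!
# The counterexample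
-/

set_option autoImplicit false
set_option maxRecDepth 100000

namespace Pool.Agent.MPc20ce7

theorem stmt_CH : Stmt_CH := by
  have pm : Stmt_PM := p_PM p_CJ p_EQ
  have tr : Stmt_TR := p_TR p_CJ pm
  have ze : Stmt_ZE := p_ZE p_EQ
  exact p_CH (p_EM pm p_CO tr p_EL ze) (p_GE pm tr)

theorem isPar_par (m : MS) (h : IsMS m) : IsPar (par m) := by
  intro p hp
  obtain ⟨s, hs, rfl⟩ := Multiset.mem_map.1 hp
  have := h s hs
  simp only
  omega

theorem dim_par (m : MS) : dim (par m) = (m.map fun s => (s.2 - s.1 + 1).toNat).sum := by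
  unfold dim par
  rw [Multiset.map_map]
  rfl

theorem lift_one (m : MS) : lift 1 (par (dual m)) = par (m + {(0, 0)}) := by
  unfold lift
  rw [contra_par, dual_dual]
  have h : (Multiset.range 1).map (fun i : ℕ => ((((1 : ℕ) : ℝ) - 1) / 2 - (i : ℝ), 1)) =
      par {(0, 0)} := by
    simp [par]
  rw [h]
  unfold par
  rw [Multiset.map_add]

theorem main (ABV : Par → Par → Prop) (h : Microlocal ABV) :
    ∃ φ φ' π : Par, (IsPar φ ∧ IsPar φ' ∧ IsPar π) ∧ (dim φ = 31 ∧ dim φ' = 31 ∧ dim π = 31) ∧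
      Geq π φ ∧ Geq φ φ' ∧ ABV π φ ∧ ABV π φ' ∧
      ABV (lift 1 π) (lift 1 φ') ∧ ¬ ABV (lift 1 π) (lift 1 φ) := by
  have hc := stmt_CH
  unfold Stmt_CH at hc
  rw [contra_par, contra_par, contra_par] at hc
  refine ⟨par (dual segH), par (dual segL), par (dual segM),
    ⟨isPar_par _ (by decide), isPar_par _ (by decide), isPar_par _ (by decide)⟩,
    ⟨?_, ?_, ?_⟩, hc.2, hc.1, abv_dual h (abv_MH h), abv_dual h (abv_ML h), ?_, ?_⟩
  · rw [dim_par]; decide
  · rw [dim_par]; decide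
  · rw [dim_par]; decide
  · rw [lift_one, lift_one]; exact abv_ML' h
  · rw [lift_one, lift_one]; exact not_abv_MH' h

end Pool.Agent.MPc20ce7
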