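import Pool.Agent.Work.MP_c20ce7_nt.B_CH
import Pool.Agent.Work.MP_c20ce7_nt.Main

/-!
# The closure order of the example with `n = 35`
-/

set_option autoImplicit false
set_option maxRecDepth 100000

namespace Pool.Agent.MPc20ce7

/-- The multisegment `M` (the example `exM`, translated by `-5`). -/
def mM : MS := {(-4, -1), (-4, 1), (-3, 0), (-3, 2), (-2, 1), (-1, -1), (-1, 2), (0, 3), (2, 3)}

/-- The multisegment `H`. -/
def mH : MS := {(-4, -1), (-4, -1), (-3, 1), (-3, 1), (-2, 0), (-1, 0), (-1, 2), (0, 3), (1, 2), (2, 3)}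

/-- The multisegment `L`. -/
def mL : MS := {(-4, -2), (-4, -1), (-3, 1), (-3, 1), (-2, 0), (-1, -1), (-1, -1), (-1, 2), (0, 0), (0, 2), (1, 3), (2, 3)}

theorem O35_HL (h1 : Stmt_EM) (h2 : Stmt_GE) : GeqL (par (dual mH)) (par (dual mL)) := by
  have s1 : GeqL (par (dual mH)) (par {(-3, -1), (-2, 0), (-3, -2), (-2, 1), (-1, 3), (-1, 3), (0, 1), (0, 2), (1, 4), (1, 4)}) :=
    CH_mv2 h1 _ _ {(-3, -2), (-2, 1), (-1, 3), (-1, 3), (0, 1), (0, 2), (1, 4), (1, 4)} (-3) (-1) (-2) (0) (by decide) (by decide) (by decide) (by decide) (by decide)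
  have s2 : GeqL (par {(-3, -1), (-2, 0), (-3, -2), (-2, 1), (-1, 3), (-1, 3), (0, 1), (0, 2), (1, 4), (1, 4)}) (par {(0, 0), (1, 1), (-3, -1), (-2, 0), (-3, -2), (-2, 1), (-1, 3), (-1, 3), (0, 2), (1, 4), (1, 4)}) :=
    CH_mv1 h1 _ _ {(-3, -1), (-2, 0), (-3, -2), (-2, 1), (-1, 3), (-1, 3), (0, 2), (1, 4), (1, 4)} (0) (0) (1) (by decide) (by decide) (by decide) (by decide)
  have s3 : GeqL (par {(0, 0), (1, 1), (-3, -1), (-2, 0), (-3, -2), (-2, 1), (-1, 3), (-1, 3), (0, 2), (1, 4), (1, 4)}) (par (dual mL)) :=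
    CH_mv1 h1 _ _ {(0, 0), (1, 1), (-3, -1), (-2, 0), (-3, -2), (-2, 1), (-1, 3), (-1, 3), (0, 2), (1, 4)} (1) (1) (4) (by decide) (by decide) (by decide) (by decide)
  exact (h2.1 _ _ _ (h2.1 _ _ _ s1 s2) s3)

theorem O35_MH (h1 : Stmt_EM) (h2 : Stmt_GE) : GeqL (par (dual mM)) (par (dual mH)) := by
  have s1 : GeqL (par (dual mM)) (par {(-2, 2), (-1, 3), (-3, -2), (-3, 0), (-2, 1), (-1, 4), (0, 3), (1, 1), (1, 4)}) :=
    CH_mv2 h1 _ _ {(-3, -2), (-3, 0), (-2, 1), (-1, 4), (0, 3), (1, 1), (1, 4)} (-2) (2) (-1) (3) (by decide) (by decide) (by decide) (by decide) (by decide)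
  have s2 : GeqL (par {(-2, 2), (-1, 3), (-3, -2), (-3, 0), (-2, 1), (-1, 4), (0, 3), (1, 1), (1, 4)}) (par {(-2, -1), (0, 2), (-1, 3), (-3, -2), (-3, 0), (-2, 1), (-1, 4), (0, 3), (1, 1), (1, 4)}) :=
    CH_mv1 h1 _ _ {(-1, 3), (-3, -2), (-3, 0), (-2, 1), (-1, 4), (0, 3), (1, 1), (1, 4)} (-2) (-1) (2) (by decide) (by decide) (by decide) (by decide)
  have s3 : GeqL (par {(-2, -1), (0, 2), (-1, 3), (-3, -2), (-3, 0), (-2, 1), (-1, 4), (0, 3), (1, 1), (1, 4)}) (par {(-1, 3), (0, 4), (-2, -1), (0, 2), (-1, 3), (-3, -2), (-3, 0), (-2, 1), (1, 1), (1, 4)}) :=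
    CH_mv2 h1 _ _ {(-2, -1), (0, 2), (-1, 3), (-3, -2), (-3, 0), (-2, 1), (1, 1), (1, 4)} (-1) (3) (0) (4) (by decide) (by decide) (by decide) (by decide) (by decide)
  have s4 : GeqL (par {(-1, 3), (0, 4), (-2, -1), (0, 2), (-1, 3), (-3, -2), (-3, 0), (-2, 1), (1, 1), (1, 4)}) (par (dual mH)) :=
    CH_mv2 h1 _ _ {(-1, 3), (-2, -1), (0, 2), (-1, 3), (-3, -2), (-3, 0), (-2, 1), (1, 4)} (0) (1) (1) (4) (by decide) (by decide) (by decide) (by decide) (by decide)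
  exact (h2.1 _ _ _ (h2.1 _ _ _ (h2.1 _ _ _ s1 s2) s3) s4)

theorem o35_em : Stmt_EM :=
  have pm : Stmt_PM := p_PM p_CJ p_EQ
  p_EM pm p_CO (p_TR p_CJ pm) p_EL (p_ZE p_EQ)

theorem o35_ge : Stmt_GE :=
  have pm : Stmt_PM := p_PM p_CJ p_EQ
  p_GE pm (p_TR p_CJ pm)

/-- The closure order of the example. -/
theorem o35_geq : Geq (contra (par mM)) (contra (par mH)) ∧ Geq (contra (par mH)) (contra (par mL)) := by
  rw [CH_contra, CH_contra, CH_contra]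
  exact ⟨o35_ge.2 _ _ (O35_MH o35_em o35_ge), o35_ge.2 _ _ (O35_HL o35_em o35_ge)⟩

theorem o35_isPar (m : MS) (h : IsMS m) : IsPar (contra (par m)) := by
  rw [CH_contra]
  refine isPar_par _ ?_
  intro s hs
  obtain ⟨t, ht, rfl⟩ := Multiset.mem_map.1 hs
  have := h t ht
  simp only
  omega

theorem o35_par : IsPar (contra (par mM)) ∧ IsPar (contra (par mH)) ∧ IsPar (contra (par mL)) :=
  ⟨o35_isPar _ (by decide), o35_isPar _ (by decide), o35_isPar _ (by decide)⟩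

theorem o35_dim : dim (contra (par mM)) = 35 ∧ dim (contra (par mH)) = 35 ∧ dim (contra (par mL)) = 35 := by
  rw [CH_contra, CH_contra, CH_contra, dim_par, dim_par, dim_par]
  decide

/-- The lift. -/
theorem o35_lift (m : MS) : lift 1 (contra (par m)) = par (m + {(0, 0)}) := by
  rw [CH_contra, lift_one]

end Pool.Agent.MPc20ce7
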