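import Pool.Agent.Work.MP_c20ce7_neg.NF
import Pool.Agent.Work.MP_c20ce7_lab.B_ABF
import Pool.Agent.Work.MP_c20ce7_nt.Ord35

/-!
# The conormal bundle of `H + X` is not in the characteristic variety of the module of `M + X`
-/

set_option autoImplicit false

open MvPolynomial Matrix Pool.Agent.MPc20ce7

noncomputable section

namespace Pool.DM

/-! ## Integral degrees -/

theorem NX_expo_int : ∀ (l : List (ℝ × ℕ)),
    (∀ p ∈ l, ∃ s : ℤ × ℤ, p = (((s.1 : ℝ) + s.2) / 2, (s.2 - s.1 + 1).toNat)) →
    ∀ a : Idx l, ∃ n : ℤ, expo l a = n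
  | [], _, x => Empty.elim x
  | p :: l, h, Sum.inl j => by
    obtain ⟨s, hs⟩ := h p (List.mem_cons_self ..)
    have hj : (j : ℕ) < p.2 := j.2
    have h2 : p.2 = (s.2 - s.1 + 1).toNat := by rw [hs]
    have h3 : (((s.2 - s.1 + 1).toNat : ℕ) : ℤ) = s.2 - s.1 + 1 := Int.toNat_of_nonneg (by omega)
    have h4 : (p.2 : ℝ) = (s.2 : ℝ) - s.1 + 1 := by
      rw [h2]
      exact_mod_cast h3
    refine ⟨s.2 - (j : ℕ), ?_⟩
    show p.1 + ((p.2 : ℝ) - 1) / 2 - ((j : ℕ) : ℝ) = _
    rw [h4, show p.1 = ((s.1 : ℝ) + s.2) / 2 from by rw [hs]]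
    push_cast
    ring
  | _ :: l, h, Sum.inr x => NX_expo_int l (fun q hq => h q (List.mem_cons_of_mem _ hq)) x

theorem NX_int {ι : Type} [Fintype ι] [DecidableEq ι] (e : ι → ℝ) (m : MS)
    (h : (orb e (par m)).Nonempty) : ∃ e' : ι → ℤ, e = fun a => (e' a : ℝ) := by
  obtain ⟨x, l, hl, g, h', hg, -, -, hhg, -⟩ := h
  have key : ∀ i, ∃ n : ℤ, e i = n := by
    intro i
    have h1 : (h' * g) i i = 1 := by rw [hhg, one_apply_eq]
    rw [mul_apply] at h1
    obtain ⟨a, -, ha⟩ := Finset.exists_ne_zero_of_sum_ne_zero (by rw [h1]; exact one_ne_zero)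
    have h2 := hg a i (right_ne_zero_of_mul ha)
    obtain ⟨n, hn⟩ := NX_expo_int l (by
      intro p hp
      have h3 : p ∈ par m := by rw [← hl]; exact hp
      obtain ⟨s, -, hs⟩ := Multiset.mem_map.1 h3
      exact ⟨s, hs.symm⟩) a
    exact ⟨n, by rw [← h2, hn]⟩
  choose e' he' using key
  exact ⟨e', funext he'⟩

theorem NX_red (hORB : Stmt_ORB) {κ κ2 : Type} [Fintype κ] [Fintype κ2] (M : κ → Seg) (N : κ2 → Seg)
    (hM : ∀ k, (M k).1 ≤ (M k).2) (hN : ∀ k, (N k).1 ≤ (N k).2)
    (h : ABV (par (Finset.univ.val.map N)) (par (Finset.univ.val.map M))) :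
    ∃ (ι : Type) (_ : Fintype ι) (_ : DecidableEq ι) (e : ι → ℤ) (L : Type) (_ : AddCommGroup L)
      (_ : Module ℂ L) (W : WMod (Co e) L), W.IsIC (orbN e M) ∧ (orbN e N).Nonempty ∧
      (orbN e M).Nonempty ∧ ∀ p ∈ Conormal e (orbN e N), W.InCh p.1 p.2 := by
  obtain ⟨ι, i1, i2, e, hne, hne2, L, i3, i4, W, hW, hCh⟩ := h
  obtain ⟨e', rfl⟩ := NX_int e _ hne
  have co : CoRel (Equiv.refl ι) (fun a => (e' a : ℝ)) e' := (ABF_co e').symm
  have dg : DegRel (Equiv.refl ι) (fun a => (e' a : ℝ)) e' := (ABF_deg e').symm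
  have key : ∀ {κ : Type} [Fintype κ] (N : κ → Seg), (∀ k, (N k).1 ≤ (N k).2) →
      ∀ x : Co e' → ℂ, x ∈ orbN e' N ↔
        x ∘ coMap co ∈ orb (fun a => (e' a : ℝ)) (par (Finset.univ.val.map N)) := by
    intro κ _ N hN x
    rw [hORB ι κ e' N hN]
    have hm : mat (fun a => (e' a : ℝ)) (x ∘ coMap co) = mat e' x := by
      funext a b
      exact mat_coMap co x a b
    rw [hm]
    constructor
    · intro hx
      exact ⟨x, hx, rfl⟩
    · rintro ⟨x1, h1, h2⟩
      rwa [← mat_injective e' h2]
  have ne : ∀ {κ : Type} [Fintype κ] (N : κ → Seg), (∀ k, (N k).1 ≤ (N k).2) →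
      (orb (fun a => (e' a : ℝ)) (par (Finset.univ.val.map N))).Nonempty → (orbN e' N).Nonempty := by
    rintro κ _ N hN ⟨x, hx⟩
    refine ⟨x ∘ (coMap co).symm, (key N hN _).2 ?_⟩
    have : (x ∘ (coMap co).symm) ∘ coMap co = x := by
      funext c
      simp
    rwa [this]
  refine ⟨ι, i1, i2, e', L, i3, i4, W.rex (coMap co), hW.coMap co dg (key M hM), ne N hN hne,
    ne M hM hne2, ?_⟩
  rintro ⟨x, ξ⟩ hp
  rw [conormal_coMap co dg (key N hN)] at hp
  exact (hCh _ hp).coMap co (fun a b => (mat_coMap co x a b).symm) (fun a b => (ymat_coMap co ξ a b).symm)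

/-! ## Permutations of the basis -/

theorem NX_perm {ι A : Type} [DecidableEq ι] [Fintype A] [DecidableEq A] (e : ι → ℤ) (f g : A → ι)
    (hf : Function.Injective f) (hg : Function.Injective g) (h : ∀ a, e (f a) = e (g a)) :
    ∃ π : Equiv.Perm ι, (∀ b, e (π b) = e b) ∧ ∀ a, π (f a) = g a := by
  have key : ∀ S : Finset A, ∃ π : Equiv.Perm ι, (∀ b, e (π b) = e b) ∧ ∀ a ∈ S, π (f a) = g a := by
    intro S
    induction S using Finset.induction_on with
    | empty => exact ⟨1, fun b => rfl, by simp⟩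
    | insert a S ha ih =>
      obtain ⟨π, h1, h2⟩ := ih
      refine ⟨π.trans (Equiv.swap (π (f a)) (g a)), ?_, ?_⟩
      · intro b
        rw [Equiv.trans_apply, Equiv.swap_apply_def]
        split
        · rename_i hb
          rw [← h, ← h1 b, hb, h1]
        · split
          · rename_i hb
            rw [h1, h, ← hb, h1]
          · exact h1 b
      · intro c hc
        rw [Equiv.trans_apply]
        rcases Finset.mem_insert.1 hc with rfl | hc
        · exact Equiv.swap_apply_left _ _
        · have hca : c ≠ a := fun hh => ha (hh ▸ hc)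
          rw [Equiv.swap_apply_of_ne_of_ne]
          · exact h2 c hc
          · intro hh
            exact hca (hf (π.injective hh))
          · rw [h2 c hc]
            exact fun hh => hca (hg hh)
  obtain ⟨π, h1, h2⟩ := key Finset.univ
  exact ⟨π, h1, fun a => h2 a (Finset.mem_univ a)⟩

theorem NX_boxing {ι κ : Type} (e : ι → ℤ) (N : κ → Seg) (sg : ι → κ) (h : Boxing e N sg)
    (π : Equiv.Perm ι) (hπ : ∀ b, e (π b) = e b) : Boxing e N (fun a => sg (π a)) := by
  refine ⟨fun a b h1 h2 => ?_, fun a => ?_, fun k j h1 h2 => ?_⟩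
  · exact π.injective (h.inj _ _ h1 (by rw [hπ, hπ, h2]))
  · have := h.mem (π a)
    rwa [hπ] at this
  · obtain ⟨a, ha, ha2⟩ := h.ex k j h1 h2
    exact ⟨π.symm a, by simp [ha], by rw [← hπ, Equiv.apply_symm_apply, ha2]⟩

theorem NX_pt {ι κ : Type} [Fintype ι] [DecidableEq ι] (e : ι → ℤ) (N : κ → Seg) (sg : ι → κ)
    (h : Boxing e N sg) :
    mat e (ptOf e (smat e sg)) = smat e sg ∧ ptOf e (smat e sg) ∈ orbN e N := by
  have h1 : mat e (ptOf e (smat e sg)) = smat e sg := by
    refine mat_ofMat e (smat e sg) fun a b hab => ?_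
    unfold smat at hab
    split at hab
    · rename_i h2; exact h2.2
    · exact absurd rfl hab
  refine ⟨h1, sg, h, 1, 1, ?_, ?_, one_mul 1, one_mul 1, by rw [h1, one_mul, mul_one]⟩
  · intro a b hab
    by_cases h2 : a = b
    · rw [h2, add_zero]
    · exact absurd (one_apply_ne h2) hab
  · intro a b hab
    by_cases h2 : a = b
    · rw [h2, add_zero]
    · exact absurd (one_apply_ne h2) hab

theorem NX_smat {ι κ : Type} [Fintype ι] [DecidableEq ι] (e : ι → ℤ) (sg : ι → κ) (a b : ι) :
    smat e sg a b = 1 ∧ (sg a = sg b ∧ e a = e b + 1) ∨ smat e sg a b = 0 ∧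
      ¬ (sg a = sg b ∧ e a = e b + 1) := by
  unfold smat
  split
  · rename_i h; exact Or.inl ⟨rfl, h⟩
  · rename_i h; exact Or.inr ⟨rfl, h⟩

/-! ## The two families -/

/-- The multisegment `M + X`. -/
def famM : Fin 10 → Seg :=
  ![(-4, -1), (-4, 1), (-3, 0), (-3, 2), (-2, 1), (-1, -1), (-1, 2), (0, 3), (2, 3), (0, 0)]

/-- The multisegment `H + X`. -/
def famH : Fin 11 → Seg :=
  ![(-4, -1), (-4, -1), (-3, 1), (-3, 1), (-2, 0), (-1, 0), (-1, 2), (0, 3), (1, 2), (2, 3), (0, 0)]

/-- The segments of `M + X` which contain `-1` and `0`. -/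
def selM : Fin 5 → Fin 10 := ![1, 2, 3, 4, 6]

/-- The segments of `H + X` which contain `-1` and `0`. -/
def selH : Fin 5 → Fin 11 := ![2, 3, 4, 5, 6]

theorem selM_mem : ∀ j, (famM (selM j)).1 ≤ -1 ∧ (0 : ℤ) ≤ (famM (selM j)).2 := by decide

theorem selH_mem : ∀ j, (famH (selH j)).1 ≤ -1 ∧ (0 : ℤ) ≤ (famH (selH j)).2 := by decide

theorem selM_inj : ∀ i j, selM i = selM j → i = j := by decide

theorem selH_inj : ∀ i j, selH i = selH j → i = j := by decide

theorem selM_ne : ∀ j, selM j ≠ 9 := by decide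

theorem selH_ne : ∀ j, selH j ≠ 10 := by decide

theorem selM_all : ∀ k : Fin 10, (famM k).1 ≤ -1 → (0 : ℤ) ≤ (famM k).2 → ∃ j, selM j = k := by decide

theorem famM_one : ∀ k : Fin 10, (famM k).1 ≤ 1 → (1 : ℤ) ≤ (famM k).2 → (famM k).1 ≤ 0 ∧ k ≠ 9 := by
  decide

theorem NX_rank (A : Matrix (Fin 6) (Fin 5) ℂ) (B : Matrix (Fin 5) (Fin 6) ℂ) :
    (A * B).det = 0 := by
  by_contra h
  have h1 : (A * B).rank = 6 := by
    have := Matrix.rank_of_isUnit (A * B) ((Matrix.isUnit_iff_isUnit_det _).2 (isUnit_iff_ne_zero.2 h))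
    simpa using this
  have h2 : (A * B).rank ≤ 5 := (Matrix.rank_mul_le_left A B).trans (by
    simpa using Matrix.rank_le_card_width A)
  omega

section Main

variable {ι : Type} [Fintype ι] [DecidableEq ι] {e : ι → ℤ}

/-- The bound for the rank of `x_in` on the orbit of `M + X`. -/
theorem NX_hmin {x : Co e → ℂ} (hx : x ∈ orbN e famM) (ρ : Fin 6 → ι) (κ : Fin 5 → ι)
    (hρ : ∀ k, e (ρ k) = 0) (hκ : ∀ j, e (κ j) = -1) (c : ι) (hc : (0 : ℤ) = e c + 1) :
    (minM ρ κ (fun b => mat e x b c) fun a b => mat e x a b).det = 0 := by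
  obtain ⟨sg, hsg, g, h, hg, hh, -, -, hm⟩ := hx
  have hc' : e c = -1 := by omega
  -- the boxes
  have b1 : ∀ j : Fin 5, ∃ a, sg a = selM j ∧ e a = -1 := fun j =>
    hsg.ex _ _ (selM_mem j).1 (by have := (selM_mem j).2; omega)
  have b0 : ∀ j : Fin 5, ∃ a, sg a = selM j ∧ e a = 0 := fun j =>
    hsg.ex _ _ (by have := (selM_mem j).1; omega) (selM_mem j).2
  choose c1 hc1 using b1
  choose c0 hc0 using b0
  have key : ∀ a q, e a = 0 → e q = -1 → mat e x a q = ∑ j, g a (c0 j) * h (c1 j) q := by
    intro a q ha hq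
    rw [hm, mul_assoc, mul_apply]
    have h1 : ∀ p, (g a p) * (smat e sg * h) p q =
        ∑ j, if c0 j = p then g a (c0 j) * h (c1 j) q else 0 := by
      intro p
      by_cases hp : e p = 0
      · -- either p is a box c0 j or the row vanishes on degree -1
        by_cases hj : ∃ j, selM j = sg p
        · obtain ⟨j, hj⟩ := hj
          have hp0 : c0 j = p := hsg.inj _ _ ((hc0 j).1.trans hj) ((hc0 j).2.trans hp.symm)
          rw [Finset.sum_eq_single j (fun i _ hij => if_neg fun hh => hij (by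
              have := congrArg sg (hh.trans hp0.symm)
              rw [(hc0 i).1, (hc0 j).1] at this
              exact selM_inj _ _ this)) (fun hh => absurd (Finset.mem_univ _) hh), if_pos hp0, hp0]
          congr 1
          rw [mul_apply, Finset.sum_eq_single (c1 j)]
          · rcases NX_smat e sg p (c1 j) with h2 | h2
            · rw [h2.1, one_mul]
            · exact absurd ⟨by rw [(hc1 j).1, ← hj], by rw [hp, (hc1 j).2]; norm_num⟩ h2.2
          · intro b _ hb
            rcases NX_smat e sg p b with h2 | h2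
            · exact absurd (hsg.inj _ _ (by rw [← h2.2.1, (hc1 j).1, hj]) (by
                have := h2.2.2
                rw [(hc1 j).2]
                omega)) hb
            · rw [h2.1, zero_mul]
          · intro hh; exact absurd (Finset.mem_univ _) hh
        · rw [Finset.sum_eq_zero fun j _ => if_neg fun hh => hj ⟨j, by rw [← hh, (hc0 j).1]⟩]
          have h3 : (smat e sg * h) p q = 0 := by
            rw [mul_apply]
            refine Finset.sum_eq_zero fun b _ => ?_
            rcases NX_smat e sg p b with h2 | h2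
            · exfalso
              apply hj
              have m1 := hsg.mem b
              have m2 := hsg.mem p
              have h4 := h2.2.2
              rw [← h2.2.1] at m1
              exact selM_all _ (by omega) (by omega)
            · rw [h2.1, zero_mul]
          rw [h3, mul_zero]
      · have h2 : g a p = 0 := by
          by_contra hne
          have := hg a p hne
          omega
        rw [h2, zero_mul]
        symm
        refine Finset.sum_eq_zero fun j _ => if_neg fun hh => hp (by rw [← hh, (hc0 j).2])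
    rw [Finset.sum_congr rfl fun p _ => h1 p, Finset.sum_comm]
    refine Finset.sum_congr rfl fun j _ => ?_
    rw [Finset.sum_ite_eq, if_pos (Finset.mem_univ _)]
  have h5 : (minM ρ κ (fun b => mat e x b c) fun a b => mat e x a b) =
      (Matrix.of fun (k : Fin 6) (j : Fin 5) => g (ρ k) (c0 j)) *
      (Matrix.of fun (j : Fin 5) (i : Fin 6) => (Fin.cons (h (c1 j) c) (fun l => h (c1 j) (κ l)) : Fin 6 → ℂ) i) := by
    ext k i
    rw [mul_apply]
    refine Fin.cases ?_ (fun i => ?_) i
    · show mat e x (ρ k) c = _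
      rw [key _ _ (hρ k) hc']
      rfl
    · show mat e x (ρ k) (κ i) = _
      rw [key _ _ (hρ k) (hκ i)]
      rfl
  rw [h5]
  exact NX_rank _ _

/-- The conormal bundle of the orbit of `H + X` is not in the characteristic variety. -/
theorem NX_main {L : Type} [AddCommGroup L] [Module ℂ L] (W : WMod (Co e) L) (hW : W.IsIC (orbN e famM))
    (hH : (orbN e famH).Nonempty) (hM : (orbN e famM).Nonempty)
    (hCh : ∀ p ∈ Conormal e (orbN e famH), W.InCh p.1 p.2) : False := by
  obtain ⟨-, sgH, hsgH, -⟩ := hH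
  obtain ⟨-, sg0, hsg0, -⟩ := hM
  -- boxes of `H + X`
  have H1 : ∀ j : Fin 5, ∃ a, sgH a = selH j ∧ e a = -1 := fun j =>
    hsgH.ex _ _ (selH_mem j).1 (by have := (selH_mem j).2; omega)
  have H0 : ∀ j : Fin 5, ∃ a, sgH a = selH j ∧ e a = 0 := fun j =>
    hsgH.ex _ _ (by have := (selH_mem j).1; omega) (selH_mem j).2
  choose c1 hc1 using H1
  choose c0 hc0 using H0
  obtain ⟨w, hw, hw0⟩ := hsgH.ex 10 0 (by decide) (by decide)
  obtain ⟨b0, hb, hb0⟩ := hsgH.ex 8 1 (by decide) (by decide)
  -- boxes of `M + X`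
  have M1 : ∀ j : Fin 5, ∃ a, sg0 a = selM j ∧ e a = -1 := fun j =>
    hsg0.ex _ _ (selM_mem j).1 (by have := (selM_mem j).2; omega)
  have M0 : ∀ j : Fin 5, ∃ a, sg0 a = selM j ∧ e a = 0 := fun j =>
    hsg0.ex _ _ (by have := (selM_mem j).1; omega) (selM_mem j).2
  choose d1 hd1 using M1
  choose d0 hd0 using M0
  obtain ⟨w', hw', hw0'⟩ := hsg0.ex 9 0 (by decide) (by decide)
  -- the rows and the columns
  let ρ : Fin 6 → ι := Fin.cons w c0
  have hρ : ∀ k, e (ρ k) = 0 := fun k => Fin.cases hw0 (fun j => (hc0 j).2) k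
  have hκ : ∀ j, e (c1 j) = -1 := fun j => (hc1 j).2
  -- the permutation
  obtain ⟨π, hπ, hπf⟩ := NX_perm e
    (Sum.elim c1 (Sum.elim c0 (fun _ => w)) : Fin 5 ⊕ (Fin 5 ⊕ Unit) → ι)
    (Sum.elim d1 (Sum.elim d0 (fun _ => w')) : Fin 5 ⊕ (Fin 5 ⊕ Unit) → ι)
    (by
      have key : ∀ a b : Fin 5 ⊕ (Fin 5 ⊕ Unit),
          sgH (Sum.elim c1 (Sum.elim c0 (fun _ => w)) a) = sgH (Sum.elim c1 (Sum.elim c0 (fun _ => w)) b) →
          e (Sum.elim c1 (Sum.elim c0 (fun _ => w)) a) = e (Sum.elim c1 (Sum.elim c0 (fun _ => w)) b) →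
          a = b := by
        rintro (i | i | i) (j | j | j) h1 h2 <;> simp only [Sum.elim_inl, Sum.elim_inr] at h1 h2
        · rw [(hc1 i).1, (hc1 j).1] at h1
          rw [selH_inj _ _ h1]
        · rw [(hc1 i).2, (hc0 j).2] at h2; omega
        · rw [(hc1 i).2, hw0] at h2; omega
        · rw [(hc0 i).2, (hc1 j).2] at h2; omega
        · rw [(hc0 i).1, (hc0 j).1] at h1
          rw [selH_inj _ _ h1]
        · rw [(hc0 i).1, hw] at h1; exact absurd h1 (selH_ne i)
        · rw [hw0, (hc1 j).2] at h2; omega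
        · rw [(hc0 j).1, hw] at h1; exact absurd h1.symm (selH_ne j)
        · rfl
      intro a b hab
      exact key a b (congrArg sgH hab) (congrArg e hab))
    (by
      have key : ∀ a b : Fin 5 ⊕ (Fin 5 ⊕ Unit),
          sg0 (Sum.elim d1 (Sum.elim d0 (fun _ => w')) a) = sg0 (Sum.elim d1 (Sum.elim d0 (fun _ => w')) b) →
          e (Sum.elim d1 (Sum.elim d0 (fun _ => w')) a) = e (Sum.elim d1 (Sum.elim d0 (fun _ => w')) b) →
          a = b := by
        rintro (i | i | i) (j | j | j) h1 h2 <;> simp only [Sum.elim_inl, Sum.elim_inr] at h1 h2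
        · rw [(hd1 i).1, (hd1 j).1] at h1
          rw [selM_inj _ _ h1]
        · rw [(hd1 i).2, (hd0 j).2] at h2; omega
        · rw [(hd1 i).2, hw0'] at h2; omega
        · rw [(hd0 i).2, (hd1 j).2] at h2; omega
        · rw [(hd0 i).1, (hd0 j).1] at h1
          rw [selM_inj _ _ h1]
        · rw [(hd0 i).1, hw'] at h1; exact absurd h1 (selM_ne i)
        · rw [hw0', (hd1 j).2] at h2; omega
        · rw [(hd0 j).1, hw'] at h1; exact absurd h1.symm (selM_ne j)
        · rfl
      intro a b hab
      exact key a b (congrArg sg0 hab) (congrArg e hab))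
    (by
      rintro (i | i | i)
      · exact (hc1 i).2.trans (hd1 i).2.symm
      · exact (hc0 i).2.trans (hd0 i).2.symm
      · exact hw0.trans hw0'.symm)
  let sg : ι → Fin 10 := fun a => sg0 (π a)
  have hsg : Boxing e famM sg := NX_boxing e famM sg0 hsg0 π hπ
  have s1 : ∀ j, sg (c1 j) = selM j := fun j => by
    show sg0 (π (c1 j)) = _
    rw [show π (c1 j) = d1 j from hπf (Sum.inl j), (hd1 j).1]
  have s0 : ∀ j, sg (c0 j) = selM j := fun j => by
    show sg0 (π (c0 j)) = _
    rw [show π (c0 j) = d0 j from hπf (Sum.inr (Sum.inl j)), (hd0 j).1]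
  have sw : sg w = 9 := by
    show sg0 (π w) = _
    rw [show π w = w' from hπf (Sum.inr (Sum.inr ())), hw']
  obtain ⟨hx1, hx1o⟩ := NX_pt e famM sg hsg
  -- the section
  have S1 : ∀ b : {b // e b = (0 : ℤ) + 1}, ∃ a, sg a = sg b.1 ∧ e a = 0 := by
    intro b
    have m1 := hsg.mem b.1
    have m2 := b.2
    have m3 := famM_one (sg b.1) (by omega) (by omega)
    exact hsg.ex _ _ m3.1 (by omega)
  choose s' hs' using S1
  have hne9 : ∀ b : {b // e b = (0 : ℤ) + 1}, sg b.1 ≠ 9 := by
    intro b
    have m1 := hsg.mem b.1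
    have m2 := b.2
    exact (famM_one (sg b.1) (by omega) (by omega)).2
  let s : {b // e b = (0 : ℤ) + 1} ⊕ Unit → ι := Sum.elim s' (fun _ => w)
  have hs : ∀ j, e (s j) = 0 := by
    rintro (j | j)
    · exact (hs' j).2
    · exact hw0
  have evx : ∀ (x : Co e → ℂ) a b, eval x (cx e a b) = mat e x a b := by
    intro x a b
    unfold cx mat
    split
    · rw [eval_X]
    · rw [map_zero]
  -- entries of `x` on the rows and columns, for both points
  have e00 : ∀ i j, smat e sg (c0 i) (c1 j) = if i = j then 1 else 0 := by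
    intro i j
    rcases NX_smat e sg (c0 i) (c1 j) with h | h
    · rw [h.1, if_pos]
      have := h.2.1
      rw [s0, s1] at this
      exact selM_inj _ _ this
    · rw [h.1, if_neg]
      rintro rfl
      exact h.2 ⟨by rw [s0, s1], by rw [(hc0 i).2, (hc1 i).2]; norm_num⟩
  have e01 : ∀ j, smat e sg w (c1 j) = 0 := by
    intro j
    rcases NX_smat e sg w (c1 j) with h | h
    · have := h.2.1
      rw [sw, s1] at this
      exact absurd this.symm (selM_ne j)
    · exact h.1
  have hcof : ∀ k, eval (ptOf e (smat e sg)) (cofK e ρ c1 k) = if k = 0 then 1 else 0 := by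
    intro k
    unfold cofK
    rw [map_mul, map_pow, map_neg, map_one, RingHom.map_det]
    refine Fin.cases ?_ (fun k => ?_) k
    · rw [if_pos rfl]
      have : (RingHom.mapMatrix (eval (ptOf e (smat e sg))))
          (Matrix.of fun i j : Fin 5 => cx e (ρ ((0 : Fin 6).succAbove i)) (c1 j)) = 1 := by
        ext i j
        rw [RingHom.mapMatrix_apply, map_apply, of_apply, evx, hx1]
        show smat e sg (c0 i) (c1 j) = _
        rw [e00, one_apply]
      rw [this, det_one]
      simp
    · rw [if_neg (Fin.succ_ne_zero k)]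
      rw [det_eq_zero_of_row_eq_zero (0 : Fin 5), mul_zero]
      intro j
      rw [RingHom.mapMatrix_apply, map_apply, of_apply, evx, hx1]
      have : ρ ((Fin.succ k).succAbove (0 : Fin 5)) = w := by
        rw [Fin.succ_succAbove_zero]
        rfl
      rw [this]
      exact e01 j
  have hphi : ∀ a, eval (ptOf e (smat e sg)) (phi e ρ c1 a) = if w = a then 1 else 0 := by
    intro a
    unfold phi
    rw [map_sum, Finset.sum_eq_single (0 : Fin 6)]
    · show eval _ (if w = a then _ else _) = _
      split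
      · rw [hcof, if_pos rfl]
      · rw [map_zero]
    · intro k _ hk
      split
      · rw [hcof, if_neg hk]
      · rw [map_zero]
    · intro hh; exact absurd (Finset.mem_univ _) hh
  have hdt : eval (ptOf e (smat e sg)) (dtA e ρ c1 0 s) ≠ 0 := by
    unfold dtA
    rw [RingHom.map_det]
    have : (RingHom.mapMatrix (eval (ptOf e (smat e sg)))) (matA e ρ c1 0 s) = 1 := by
      ext i j
      rw [RingHom.mapMatrix_apply, map_apply]
      rcases i with i | i
      · show eval _ (cx e i.1 (s j)) = _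
        rw [evx, hx1]
        rcases j with j | j
        · show smat e sg i.1 (s' j) = _
          rcases NX_smat e sg i.1 (s' j) with h | h
          · have h1 := h.2.1
            rw [(hs' j).1] at h1
            have h2 : i = j := Subtype.ext (hsg.inj _ _ h1 (by rw [i.2, j.2]))
            rw [h.1, h2, one_apply_eq]
          · rw [h.1, one_apply_ne]
            rintro hij
            have hij' : i = j := Sum.inl.inj hij
            exact h.2 ⟨by rw [(hs' j).1, hij'], by rw [(hs' j).2, i.2]⟩
        · show smat e sg i.1 w = _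
          rcases NX_smat e sg i.1 w with h | h
          · have h1 := h.2.1
            rw [sw] at h1
            exact absurd h1 (hne9 i)
          · rw [h.1, one_apply_ne Sum.inl_ne_inr]
      · show eval _ (phi e ρ c1 (s j)) = _
        rw [hphi]
        rcases j with j | j
        · rw [one_apply_ne Sum.inr_ne_inl, if_neg]
          intro hh
          have h1 : sg (s' j) = 9 := by rw [← sw]; exact congrArg sg hh.symm
          rw [(hs' j).1] at h1
          exact hne9 j h1
        · have hjj : Sum.inr i = (Sum.inr j : {b : ι // e b = (0 : ℤ) + 1} ⊕ Unit) := congrArg Sum.inr (Subsingleton.elim i j)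
          rw [hjj, one_apply_eq]
          exact if_pos rfl
    rw [this, det_one]
    exact one_ne_zero
  -- the conormal pair
  obtain ⟨hx0, hx0o⟩ := NX_pt e famH sgH hsgH
  let y : Matrix ι ι ℂ := Matrix.of fun a b => if a = w ∧ b = b0 then 1 else 0
  let ξ : Co e → ℂ := covOf e y
  have hb0' : e b0 = (0 : ℤ) + 1 := by omega
  have hy : ymat e ξ = y := by
    refine ymat_ofYmat e y fun a b hab => ?_
    have : a = w ∧ b = b0 := by
      by_contra hh
      exact hab (if_neg hh)
    rw [this.1, this.2, hw0, hb0]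
    norm_num
  have hcon : (ptOf e (smat e sgH), ξ) ∈ Conormal e (orbN e famH) := by
    refine ⟨hx0o, ?_⟩
    intro h hh
    have hsum : ∑ c : Co e, ξ c * (h * mat e (ptOf e (smat e sgH)) - mat e (ptOf e (smat e sgH)) * h) c.1.1 c.1.2 =
        (h * smat e sgH - smat e sgH * h) b0 w := by
      rw [hx0]
      rw [Finset.sum_eq_single (⟨(b0, w), by show e b0 = e w + 1; omega⟩ : Co e)]
      · show (if w = w ∧ b0 = b0 then (1 : ℂ) else 0) * _ = _
        rw [if_pos ⟨rfl, rfl⟩, one_mul]
      · rintro ⟨⟨a, b⟩, hab⟩ _ hne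
        show (if b = w ∧ a = b0 then (1 : ℂ) else 0) * _ = 0
        rw [if_neg, zero_mul]
        rintro ⟨rfl, rfl⟩
        exact hne rfl
      · intro hh; exact absurd (Finset.mem_univ _) hh
    show ∑ c : Co e, ξ c * (h * mat e (ptOf e (smat e sgH)) - mat e (ptOf e (smat e sgH)) * h) c.1.1 c.1.2 = 0
    rw [hsum, Matrix.sub_apply, Matrix.mul_apply, Matrix.mul_apply, Finset.sum_eq_zero, Finset.sum_eq_zero, sub_zero]
    · intro c _
      rcases NX_smat e sgH b0 c with h1 | h1
      · exfalso
        have m := hsgH.mem c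
        rw [← h1.2.1, hb] at m
        have m2 := h1.2.2
        have m3 : (famH 8).1 = 1 := by decide
        omega
      · rw [h1.1, zero_mul]
    · intro c _
      rcases NX_smat e sgH c w with h1 | h1
      · exfalso
        have m := hsgH.mem c
        rw [h1.2.1, hw] at m
        have m2 := h1.2.2
        have m3 : (famH 10).2 = 0 := by decide
        omega
      · rw [h1.1, mul_zero]
  have hin := hCh _ hcon
  have hfin := neg_part e ρ c1 0 s ⟨b0, hb0'⟩ W hW.simple hW.equi (orbN e famM) hW.supp hρ hs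
    (fun k hk => by
      have := hρ k
      rw [show ρ k = b0 from hk, hb0] at this
      omega)
    (fun x hx c hc => NX_hmin hx ρ c1 hρ hκ c hc) ⟨_, hx1o, hdt⟩ _ _ hin
  have hmat : (minM ρ c1 (fun a => ymat e ξ a b0) fun a b => mat e (ptOf e (smat e sgH)) a b) = 1 := by
    rw [hy, hx0]
    ext k i
    refine Fin.cases ?_ (fun k => ?_) k <;> refine Fin.cases ?_ (fun i => ?_) i
    · show (if w = w ∧ b0 = b0 then (1 : ℂ) else 0) = _
      rw [if_pos ⟨rfl, rfl⟩, one_apply_eq]
    · show smat e sgH w (c1 i) = _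
      rw [one_apply_ne (Fin.succ_ne_zero i).symm]
      rcases NX_smat e sgH w (c1 i) with h1 | h1
      · have := h1.2.1
        rw [hw, (hc1 i).1] at this
        exact absurd this.symm (selH_ne i)
      · exact h1.1
    · show (if c0 k = w ∧ b0 = b0 then (1 : ℂ) else 0) = _
      rw [one_apply_ne (Fin.succ_ne_zero k), if_neg]
      rintro ⟨h1, -⟩
      have h2 := congrArg sgH h1
      rw [(hc0 k).1, hw] at h2
      exact selH_ne k h2
    · show smat e sgH (c0 k) (c1 i) = _
      rcases NX_smat e sgH (c0 k) (c1 i) with h1 | h1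
      · have h2 := h1.2.1
        rw [(hc0 k).1, (hc1 i).1] at h2
        rw [h1.1, selH_inj _ _ h2, one_apply_eq]
      · rw [h1.1, one_apply_ne]
        intro hki
        have hki' : k = i := Fin.succ_injective _ hki
        subst hki'
        exact h1.2 ⟨by rw [(hc0 k).1, (hc1 k).1], by rw [(hc0 k).2, (hc1 k).2]; norm_num⟩
  rw [hmat, det_one] at hfin
  exact one_ne_zero hfin

end Main

theorem famM_map : Finset.univ.val.map famM = mM + {(0, 0)} := by decide

theorem famH_map : Finset.univ.val.map famH = mH + {(0, 0)} := by decide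

/-- **NEGX.** The representation with the parameter `M + X` is not in the packet of `H + X`. -/
theorem not_ABV_HX (hORB : Stmt_ORB) : ¬ ABV (par (mH + {(0, 0)})) (par (mM + {(0, 0)})) := by
  intro h
  rw [← famM_map, ← famH_map] at h
  obtain ⟨ι, _, _, e, L, _, _, W, hW, hH, hM, hCh⟩ := NX_red hORB famM famH (by decide) (by decide) h
  exact NX_main W hW hH hM hCh

end Pool.DM
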