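import Pool.Agent.Work.MP_c20ce7_lab.B_CHH
import Pool.Agent.Work.MP_c20ce7_lab.B_CHL
import Pool.Agent.Work.MP_c20ce7_nt.NegX

/-!
# The example with `n = 35`
-/

set_option autoImplicit false
set_option maxRecDepth 100000

open Pool.Agent.MPc20ce7

noncomputable section

namespace Pool.DM

theorem FI_M : Finset.univ.val.map (starN (shiftN (-5) exM)) = dual mM := by decide
theorem FI_H : Finset.univ.val.map (starN (shiftN (-5) exH)) = dual mH := by decide
theorem FI_L : Finset.univ.val.map (starN (shiftN (-5) exL)) = dual mL := by decide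
theorem FI_MX : Finset.univ.val.map (shiftN (-5) exMX) = mM + {(0, 0)} := by decide
theorem FI_LX : Finset.univ.val.map (shiftN (-5) exLX) = mL + {(0, 0)} := by decide

/-- The example, from the two chains. -/
theorem final_of (hCHH : Stmt_CHH) (hCHL : Stmt_CHL) (hGT : Stmt_GT) (hGH : Stmt_GH) (hABF : Stmt_ABF)
    (hORB : Stmt_ORB) :
    ∃ φ φ' ψ : Par, IsPar φ ∧ IsPar φ' ∧ IsPar ψ ∧ dim φ = 35 ∧ Geq φ φ' ∧ Geq ψ φ ∧ ABV φ ψ ∧ ABV φ' ψ ∧
      ABV (lift 1 φ') (lift 1 ψ) ∧ ¬ ABV (lift 1 φ) (lift 1 ψ) := by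
  refine ⟨contra (par mH), contra (par mL), contra (par mM), o35_par.2.1, o35_par.2.2, o35_par.1, o35_dim.2.1,
    o35_geq.2, o35_geq.1, ?_, ?_, ?_, ?_⟩
  · rw [CH_contra, CH_contra, ← FI_H, ← FI_M]
    exact hABF _ _ _ _ (by decide) (by decide) (hGT _ _ _ _ (hGH _ _ (-5) exM exH hCHH))
  · rw [CH_contra, CH_contra, ← FI_L, ← FI_M]
    exact hABF _ _ _ _ (by decide) (by decide) (hGT _ _ _ _ (hGH _ _ (-5) exM exL hCHL.1))
  · rw [o35_lift, o35_lift, ← FI_LX, ← FI_MX]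
    exact hABF _ _ _ _ (by decide) (by decide) (hGH _ _ (-5) exMX exLX hCHL.2)
  · rw [o35_lift, o35_lift]
    exact not_ABV_HX hORB

end Pool.DM
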