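import Pool.Agent.Work.MP_c20ce7_nt.Defs

/-!
# Statements of the blocks
-/

set_option autoImplicit false

namespace Pool.Agent.MPc20ce7

/-- The published facts on microlocal packets. `ABV π φ` means: the irreducible representation with the
parameter `π` lies in the ABV-packet of `φ`, that is, the parameters have the same infinitesimal
parameter `λ` and the closure of the conormal bundle of `C_φ` in `T^* V_λ` is a component of the singular
support of the intersection cohomology complex of the closure of `C_π`.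

* `contragredient`: the isomorphism `x ↦ - x^T` from `V_λ` to `V_λ'`, `λ' = λ^∨`.
* `twisting`: `V_λ` does not change if `λ` is twisted by a power of the norm.
* `crystal`, `reduction`: let the parameters be given by multisegments `M`, `N`, and let `i` be an
  integer. `eps i N` is the dimension of `V_i / (x V_(i - 1) + y V_(i + 1))` at the generic point
  `(x, y)` of the conormal bundle of the orbit of `N`. If the conormal bundle of the orbit of `N` is in the
  singular support for `M` then `eps i M ≤ eps i N`; if `eps i M = eps i N` then it is in this singular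
  support if and only if the same holds for the multisegments `e_i^max M` and `e_i^max N`
  (Kashiwara-Saito, Geometric construction of crystal bases, Duke Math. J. 89 (1997), section 8; the
  combinatorial form of the crystal of multisegments is well known).
* `kashiwaraSaito`: the example of Kashiwara and Saito in the same paper (type `A_5`, dimension vector
  `(2, 4, 4, 4, 2)`; for `GL_16(F)` see Cunningham, Fiori and Kitt, Appearance of the Kashiwara-Saito
  singularity in the representation theory of p-adic GL(16)). -/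
structure Microlocal (ABV : Par → Par → Prop) : Prop where
  contragredient : ∀ π φ : Par, ABV π φ → ABV (contra π) (contra φ)
  twisting : ∀ (t : ℝ) (π φ : Par), ABV π φ → ABV (twist t π) (twist t φ)
  crystal : ∀ (i : ℤ) (M N : MS), IsMS M → IsMS N → ABV (par M) (par N) → eps i M ≤ eps i N
  reduction : ∀ (i : ℤ) (M N : MS), IsMS M → IsMS N → eps i M = eps i N →
    (ABV (par M) (par N) ↔ ABV (par (red i M)) (par (red i N)))
  kashiwaraSaito : ABV (par {(1, 4), (2, 5), (1, 2), (2, 3), (3, 4), (4, 5)})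
    (par {(1, 2), (1, 2), (2, 4), (2, 4), (3, 3), (3, 3), (4, 5), (4, 5)})

/-- The multisegment `M` (of size 31). -/
def segM : MS := {(-3, -1), (-3, 3), (-2, 0), (-2, 4), (-1, 1), (0, 2), (1, 3), (3, 4)}

/-- The multisegment `H`. -/
def segH : MS := {(-3, -2), (-3, -1), (-2, 1), (-2, 3), (-1, -1), (-1, 0), (0, 2), (0, 4), (1, 3), (3, 4)}

/-- The multisegment `L`. -/
def segL : MS := {(-3, -3), (-3, -2), (-2, -1), (-2, 1), (-2, 1), (-1, -1), (-1, 0), (0, 0), (0, 3), (1, 2),
  (1, 3), (2, 2), (3, 4), (3, 4)}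

/-- The dual multisegment. -/
def dual (m : MS) : MS := m.map fun s => (-s.2, -s.1)

/-- The translate by `t`. -/
def shift (t : ℤ) (m : MS) : MS := m.map fun s => (s.1 + t, s.2 + t)

/-! ## Orbits -/

/-- The degeneration relation of lists of pairs `(s, k)`: the standard point of `l'` is in the closure of
the orbit of `l`, in the space `V_λ` of the standard basis of `l'`. -/
def Deg (l l' : List (ℝ × ℕ)) : Prop :=
  nil l' ∈ closure {x : Matrix (Idx l') (Idx l') ℂ | Conj (expo l') x (expo l) (nil l)}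

/-- Block CJ: `Conj` is an equivalence relation. Proof. Reflexive: `g = h = 1`. Symmetric: exchange `g`
and `h`; `g * x * h = g * h * x' * g * h = x'`. Transitive: `x = h x' g`, `x' = h' x'' g'`: take `g' * g`
and `h * h'`; an entry of `g' * g` is nonzero only if some summand `g' b a * g a i` is nonzero, so
`e'' b = e' a = e i`. -/
def Stmt_CJ : Prop :=
  (∀ (ι : Type) [Fintype ι] [DecidableEq ι] (e : ι → ℝ) (x : Matrix ι ι ℂ), Conj e x e x) ∧
  (∀ (ι κ : Type) [Fintype ι] [DecidableEq ι] [Fintype κ] [DecidableEq κ] (e : ι → ℝ)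
    (x : Matrix ι ι ℂ) (e' : κ → ℝ) (x' : Matrix κ κ ℂ), Conj e x e' x' → Conj e' x' e x) ∧
  (∀ (ι κ μ : Type) [Fintype ι] [DecidableEq ι] [Fintype κ] [DecidableEq κ] [Fintype μ] [DecidableEq μ]
    (e : ι → ℝ) (x : Matrix ι ι ℂ) (e' : κ → ℝ) (x' : Matrix κ κ ℂ) (e'' : μ → ℝ) (x'' : Matrix μ μ ℂ),
    Conj e x e' x' → Conj e' x' e'' x'' → Conj e x e'' x'')

/-- Block EQ: conjugation by a bijection of the index sets which respects exponents and entries.
Proof: `g a i = if σ i = a then 1 else 0`, `h` its transpose (`Equiv.toPEquiv.toMatrix` or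
`(1 : Matrix ι ι ℂ).submatrix`). -/
def Stmt_EQ : Prop :=
  ∀ (ι κ : Type) [Fintype ι] [DecidableEq ι] [Fintype κ] [DecidableEq κ] (σ : ι ≃ κ) (e : ι → ℝ)
    (x : Matrix ι ι ℂ) (e' : κ → ℝ) (x' : Matrix κ κ ℂ), (∀ i, e' (σ i) = e i) →
    (∀ i j, x' (σ i) (σ j) = x i j) → Conj e x e' x'

/-- Block PM: the standard points of two lists which are permutations of each other are conjugate.
Proof: induction on `List.Perm`. nil: `CJ`. cons: block diagonal `g` and `h` (`Matrix.fromBlocks 1 0 0 g`).
swap: `EQ` for the obvious bijection of `Fin k ⊕ (Fin k' ⊕ Idx l)` and `Fin k' ⊕ (Fin k ⊕ Idx l)`. trans: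
`CJ`. Uses CJ, EQ. -/
def Stmt_PM : Prop :=
  ∀ l l' : List (ℝ × ℕ), l.Perm l' → Conj (expo l) (nil l) (expo l') (nil l')

/-- Block CO: adding a common summand: `Deg l l' → Deg (p :: l) (p :: l')`. Proof: the map
`x ↦ fromBlocks (jordan p.2) 0 0 x` is continuous, it maps `nil l'` to `nil (p :: l')` and the set for `l`
into the set for `p :: l` (`g ↦ fromBlocks 1 0 0 g`); use `map_mem_closure`. -/
def Stmt_CO : Prop := ∀ (p : ℝ × ℕ) (l l' : List (ℝ × ℕ)), Deg l l' → Deg (p :: l) (p :: l')

/-- Block TR: (a) `Deg l l'`, `Deg l' l''` imply `Deg l l''`; (b) conjugate standard points: if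
`Conj (expo l) (nil l) (expo l') (nil l')` then `Deg l l'`; (c) if `Deg l l'`, `l'` is a list for `φ'` and
`l` a list for `φ` then `Geq φ φ'`. Proof. Equivariance: if `y` is conjugate to `nil l'`, `y = h (nil l') g`,
then `z ↦ h z g` is continuous and maps every point conjugate to `nil l` to such a point, so
`y ∈ closure {x | Conj e x (expo l) (nil l)}` if `Deg l l'` (`map_mem_closure`). (a): apply this to all `y`
in `{x | Conj (expo l'') x (expo l') (nil l')}` and use `closure_minimal`. (b): `subset_closure`. (c): take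
`ι = Idx l'`, `e = expo l'`; the orbit of `φ'` contains `nil l'`; if `y` is in the orbit of `φ'` then `y` is
conjugate to `nil l1` for a list `l1` which is a permutation of `l'` (`Multiset.coe_eq_coe`), so to
`nil l'` by PM; now equivariance. Uses CJ, PM. -/
def Stmt_TR : Prop :=
  (∀ l l' l'' : List (ℝ × ℕ), Deg l l' → Deg l' l'' → Deg l l'') ∧
  (∀ l l' : List (ℝ × ℕ), Conj (expo l) (nil l) (expo l') (nil l') → Deg l l') ∧
  (∀ (l l' : List (ℝ × ℕ)) (φ φ' : Par), (l : Par) = φ → (l' : Par) = φ' → Deg l l' → Geq φ φ')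

/-- The pair `(s, k)` of the segment with the largest exponent `b` and the length `k`. -/
noncomputable def top (b : ℝ) (k : ℕ) : ℝ × ℕ := (b - ((k : ℝ) - 1) / 2, k)

/-- Block EL (elementary degeneration): let `r ≤ p`, `1 ≤ D`. The sum of the segments with the largest
exponents `b + D`, `b` and the lengths `p + D`, `r` degenerates to the sum of the segments with the largest
exponents `b`, `b + D` and the lengths `p`, `r + D`.
Proof. `Idx [top b p, top (b + D) (r + D)] = Fin p ⊕ (Fin (r + D) ⊕ Empty)`; write `u_j` (`j < p`, exponent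
`b - j`) and `v_j` (`j < r + D`, exponent `b + D - j`) for the basis; `nil` maps `u_j` to `u_(j-1)`, `v_j` to
`v_(j-1)` and `u_0`, `v_0` to `0`. For a real (or complex) number `t ≠ 0` let `x_t` be `nil` plus `t` times
the matrix which maps `u_0` (exponent `b`) to `v_(D-1)` (exponent `b + 1`). `x_t → nil` for `t → 0`
(`t = 1 / (n + 1)`, or `mem_closure_of_tendsto` with the filter `𝓝[≠] 0`). On the other side, in
`Fin (p + D) ⊕ (Fin r ⊕ Empty)` with basis `w_j` (exponent `b + D - j`) and `z_j` (exponent `b - j`), put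
`h : w_j ↦ t v_j` for `j < D`, `w_j ↦ u_(j-D)` for `j ≥ D`, `z_j ↦ t v_(j+D) - u_j`. Its inverse is
`g : u_j ↦ w_(j+D)`, `v_j ↦ t⁻¹ w_j` for `j < D`, `v_j ↦ t⁻¹ (w_j + z_(j-D))` for `j ≥ D`. Then
`x_t h = h nil'`: `w_j ↦ w_(j-1)` (for `j = D`: `u_0 ↦ t v_(D-1)`), `z_j ↦ z_(j-1)` and
`z_0 = t v_D - u_0 ↦ t v_(D-1) - t v_(D-1) = 0`. All entries of `g`, `h` respect the exponents. So `x_t` is
conjugate to the standard point of `[top (b + D) (p + D), top b r]`. -/
def Stmt_EL : Prop :=
  ∀ (b : ℝ) (p r D : ℕ), r ≤ p → 1 ≤ D →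
    Deg [top (b + D) (p + D), top b r] [top b p, top (b + D) (r + D)]

/-- Block ZE: a pair `(s, 0)` can be added or left out: `Idx ((s, 0) :: l) = Fin 0 ⊕ Idx l`. Proof: EQ for
`Equiv.emptySum`. -/
def Stmt_ZE : Prop :=
  ∀ (s : ℝ) (l : List (ℝ × ℕ)), Conj (expo ((s, 0) :: l)) (nil ((s, 0) :: l)) (expo l) (nil l)

/-- Degeneration of parameters, in the list form. -/
def GeqL (φ φ' : Par) : Prop :=
  ∃ l l' : List (ℝ × ℕ), (l : Par) = φ ∧ (l' : Par) = φ' ∧ Deg l l'

/-- Block EM (elementary moves on multisegments): for `a ≤ b < d` the sum of `[a, d]` and `m` degenerates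
to `[a, b] + [b + 1, d] + m`, and for `a < c ≤ b < d` `[a, d] + [c, b] + m` degenerates to
`[a, b] + [c, d] + m`. Proof: write `m` as a list `l` (`Multiset.toList`); EL with the largest exponent `b`,
`p = b - a + 1`, `D = d - b`, `r = b - c + 1` (`r = 0` and ZE in the first part); CO along `l` and PM to
bring the two pairs to the end; TR (a), (b). The equality of `par` and `top`: `top b (b - a + 1)` is
`((a + b) / 2, b - a + 1)`. Uses PM, CO, TR, EL, ZE. -/
def Stmt_EM : Prop :=
  (∀ (a b d : ℤ) (m : MS), a ≤ b → b < d →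
    GeqL (par ((a, d) ::ₘ m)) (par ((a, b) ::ₘ (b + 1, d) ::ₘ m))) ∧
  (∀ (a b c d : ℤ) (m : MS), a < c → c ≤ b → b < d →
    GeqL (par ((a, d) ::ₘ (c, b) ::ₘ m)) (par ((a, b) ::ₘ (c, d) ::ₘ m)))

/-- Block GE: `GeqL` is transitive and implies `Geq`. Proof: if `(l, l')` and `(l1, l2)` are the lists with
`(l' : Par) = (l1 : Par)` then `l'` is a permutation of `l1` (`Multiset.coe_eq_coe`), so
`Deg l' l1` by PM and TR (b); TR (a) twice. The second part is TR (c). Uses PM, TR. -/
def Stmt_GE : Prop :=
  (∀ φ φ' φ'' : Par, GeqL φ φ' → GeqL φ' φ'' → GeqL φ φ'') ∧ (∀ φ φ' : Par, GeqL φ φ' → Geq φ φ')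

/-- Block CH: the closure order of the example: `M^∨ ≥_C H^∨ ≥_C L^∨`. Proof: contragredient of `par` is
`par` of the dual (`(-b, -a)` for `(a, b)`). Five moves lead from `H^∨` to `L^∨`: `[-4, 0] → [-4, -2] +
[-1, 0]`, `[-4, -2] → [-4, -3] + [-2, -2]`, `[-3, 2] + [-1, 0] → [-3, 0] + [-1, 2]`,
`[1, 3] → [1, 2] + [3, 3]`, `[-2, 0] → [-2, -1] + [0, 0]`. Four moves lead from `M^∨` to `H^∨`:
`[-1, 1] → [-1, 0] + [1, 1]`, `[0, 2] → [0, 1] + [2, 2]`, `[-4, 2] + [-1, 0] → [-4, 0] + [-1, 2]`,
`[-3, 3] + [2, 2] → [-3, 2] + [2, 3]`. Equalities of multisegments by `decide`. Uses EM, GE. -/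
def Stmt_CH : Prop :=
  Geq (contra (par segH)) (contra (par segL)) ∧ Geq (contra (par segM)) (contra (par segH))

end Pool.Agent.MPc20ce7
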